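import Mathlib
import Pool.Agent.R412.RT.T4
set_option autoImplicit false

/-! The kernel inequality for oscillatory integrals tested on a weight, and the one dimensional
Gaussian. -/

namespace Pool.Agent.H972PL

open MeasureTheory Complex Set Filter Topology
open scoped ENNReal RealInnerProductSpace ComplexConjugate
open Pool.Agent.R412.RT (E ee ee_norm ee_add ee_conj ee_meas ee_cont)

section ker

variable {T X : Type*} [MeasurableSpace T] [MeasurableSpace X]

/-- the kernel inequality -/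
theorem regG (μ : Measure T) [SFinite μ] (ρ : Measure X) [SFinite ρ] (k : T → ℝ)
    (hk0 : ∀ t, 0 ≤ k t) (hkm : Measurable k) (hk : Integrable k μ) (θ : T → X → ℝ)
    (hθ : Measurable (Function.uncurry θ)) (g : X → ℂ) (hg : Integrable g ρ) :
    ∫⁻ t, ENNReal.ofReal (k t) * ‖∫ x, ee (θ t x) * g x ∂ρ‖ₑ ^ 2 ∂μ ≤
      ∫⁻ x, ∫⁻ y, ‖g x‖ₑ * ‖g y‖ₑ * ‖∫ t, (k t : ℂ) * ee (θ t x - θ t y) ∂μ‖ₑ ∂ρ ∂ρ := by
  set F : T → ℂ := fun t => ∫ x, ee (θ t x) * g x ∂ρ with hF
  set h : T → (X × X) → ℂ := fun t z =>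
    (k t : ℂ) * (ee (θ t z.1 - θ t z.2) * (g z.1 * conj (g z.2))) with hh
  set K : X × X → ℂ := fun z => ∫ t, (k t : ℂ) * ee (θ t z.1 - θ t z.2) ∂μ with hK
  have hgm := hg.aestronglyMeasurable
  have hgg : Integrable (fun z : X × X => g z.1 * conj (g z.2)) (ρ.prod ρ) :=
    hg.mul_prod ((Complex.conjLIE.toContinuousLinearEquiv.integrable_comp_iff).2 hg)
  have hprod : Integrable (fun p : T × (X × X) =>
      (k p.1 : ℂ) * (g p.2.1 * conj (g p.2.2))) (μ.prod (ρ.prod ρ)) :=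
    hk.ofReal.mul_prod hgg
  have hθ1 : Measurable fun p : T × (X × X) => θ p.1 p.2.1 :=
    hθ.comp (measurable_fst.prodMk (measurable_fst.comp measurable_snd))
  have hθ2 : Measurable fun p : T × (X × X) => θ p.1 p.2.2 :=
    hθ.comp (measurable_fst.prodMk (measurable_snd.comp measurable_snd))
  have hem : Measurable fun p : T × (X × X) => ee (θ p.1 p.2.1 - θ p.1 p.2.2) :=
    ee_meas.comp (hθ1.sub hθ2)
  have hint : Integrable (fun p : T × (X × X) => h p.1 p.2) (μ.prod (ρ.prod ρ)) := by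
    have h1 := hprod.bdd_mul (c := 1) hem.aestronglyMeasurable
      (Filter.Eventually.of_forall fun p => (ee_norm _).le)
    refine h1.congr (Filter.Eventually.of_forall fun p => ?_)
    simp only [hh]
    ring
  have hsq : ∀ t, (F t * conj (F t)) = ∫ z : X × X, ee (θ t z.1 - θ t z.2) *
      (g z.1 * conj (g z.2)) ∂(ρ.prod ρ) := by
    intro t
    have e1 : conj (F t) = ∫ y, conj (ee (θ t y) * g y) ∂ρ := by
      simp only [hF]
      rw [← integral_conj]
    rw [e1]
    simp only [hF]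
    rw [← integral_prod_mul]
    refine integral_congr_ae (Filter.Eventually.of_forall fun z => ?_)
    simp only
    rw [map_mul, ee_conj, sub_eq_add_neg, ee_add]
    ring
  have hkey : ∫ t, (k t : ℂ) * (F t * conj (F t)) ∂μ =
      ∫ z : X × X, (g z.1 * conj (g z.2)) * K z ∂(ρ.prod ρ) := by
    have e1 : ∀ t, (k t : ℂ) * (F t * conj (F t)) =
        ∫ z : X × X, h t z ∂(ρ.prod ρ) := by
      intro t
      rw [hsq, ← integral_const_mul]
    simp_rw [e1]
    rw [integral_integral_swap hint]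
    refine integral_congr_ae (Filter.Eventually.of_forall fun z => ?_)
    simp only [hh, hK]
    rw [← integral_const_mul]
    refine integral_congr_ae (Filter.Eventually.of_forall fun t => ?_)
    simp only
    ring
  -- real form
  have hFm : AEStronglyMeasurable F μ := by
    have : AEStronglyMeasurable (fun p : T × X => ee (θ p.1 p.2) * g p.2) (μ.prod ρ) :=
      (ee_meas.comp hθ).aestronglyMeasurable.mul hgm.comp_snd
    exact this.integral_prod_right'
  have hFb : ∀ t, ‖F t‖ ≤ ∫ x, ‖g x‖ ∂ρ := by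
    intro t
    refine (norm_integral_le_integral_norm _).trans (le_of_eq ?_)
    refine integral_congr_ae (Filter.Eventually.of_forall fun x => ?_)
    simp only
    rw [norm_mul, ee_norm, one_mul]
  have hint2 : Integrable (fun t => k t * ‖F t‖ ^ 2) μ := by
    have := hk.bdd_mul (c := (∫ x, ‖g x‖ ∂ρ) ^ 2) (hFm.norm.pow 2)
      (Filter.Eventually.of_forall fun t => by
        have h0 : 0 ≤ (‖F t‖) ^ 2 := by positivity
        show ‖(‖F t‖) ^ 2‖ ≤ _
        rw [Real.norm_of_nonneg h0]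
        exact pow_le_pow_left₀ (norm_nonneg _) (hFb t) 2)
    refine this.congr (Filter.Eventually.of_forall fun t => ?_)
    simp only [Pi.pow_apply]
    ring
  have hnn : ∀ t, 0 ≤ k t * ‖F t‖ ^ 2 := fun t => mul_nonneg (hk0 t) (by positivity)
  have hre : ∫ t, (k t : ℂ) * (F t * conj (F t)) ∂μ =
      ((∫ t, k t * ‖F t‖ ^ 2 ∂μ : ℝ) : ℂ) := by
    rw [← integral_complex_ofReal]
    refine integral_congr_ae (Filter.Eventually.of_forall fun t => ?_)
    simp only
    rw [Complex.mul_conj, Complex.normSq_eq_norm_sq]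
    push_cast
    ring
  have hle : ENNReal.ofReal (∫ t, k t * ‖F t‖ ^ 2 ∂μ) ≤
      ∫⁻ z : X × X, ‖(g z.1 * conj (g z.2)) * K z‖ₑ ∂(ρ.prod ρ) := by
    have h1 : ENNReal.ofReal (∫ t, k t * ‖F t‖ ^ 2 ∂μ) =
        ‖((∫ t, k t * ‖F t‖ ^ 2 ∂μ : ℝ) : ℂ)‖ₑ := by
      rw [← ofReal_norm, Complex.norm_real, Real.norm_of_nonneg (integral_nonneg hnn)]
    rw [h1, ← hre, hkey]
    exact enorm_integral_le_lintegral_enorm _
  have hlhs : ∫⁻ t, ENNReal.ofReal (k t) * ‖F t‖ₑ ^ 2 ∂μ =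
      ENNReal.ofReal (∫ t, k t * ‖F t‖ ^ 2 ∂μ) := by
    rw [ofReal_integral_eq_lintegral_ofReal hint2 (Filter.Eventually.of_forall hnn)]
    refine lintegral_congr fun t => ?_
    rw [ENNReal.ofReal_mul (hk0 t), ENNReal.ofReal_pow (norm_nonneg _), ofReal_norm]
  rw [hlhs]
  refine hle.trans (le_of_eq ?_)
  have hKm : Measurable K := by
    have h1 : StronglyMeasurable (Function.uncurry fun (z : X × X) (t : T) =>
        (k t : ℂ) * ee (θ t z.1 - θ t z.2)) := by
      refine Measurable.stronglyMeasurable ?_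
      refine (Complex.measurable_ofReal.comp (hkm.comp measurable_snd)).mul ?_
      exact hem.comp measurable_swap
    exact h1.integral_prod_right.measurable
  have hm : AEMeasurable (fun z : X × X => ‖g z.1‖ₑ * ‖g z.2‖ₑ * ‖K z‖ₑ) (ρ.prod ρ) :=
    ((hgm.comp_fst.enorm.mul hgm.comp_snd.enorm)).mul hKm.enorm.aemeasurable
  have e2 : ∫⁻ x, ∫⁻ y, ‖g x‖ₑ * ‖g y‖ₑ * ‖∫ t, (k t : ℂ) * ee (θ t x - θ t y) ∂μ‖ₑ ∂ρ ∂ρ =
      ∫⁻ x, ∫⁻ y, (fun z : X × X => ‖g z.1‖ₑ * ‖g z.2‖ₑ * ‖K z‖ₑ) (x, y) ∂ρ ∂ρ := rfl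
  rw [e2, ← lintegral_prod _ hm]
  refine lintegral_congr fun z => ?_
  rw [enorm_mul, enorm_mul]
  congr 2
  rw [← ofReal_norm, Complex.norm_conj, ofReal_norm]

end ker

/-- the one dimensional Gaussian kernel -/
noncomputable def k1 (ε v : ℝ) : ℝ := √(Real.pi / ε) * Real.exp (-(Real.pi ^ 2 / ε) * v ^ 2)

theorem k1_nonneg (ε v : ℝ) : 0 ≤ k1 ε v := by unfold k1; positivity

theorem k1_cont (ε : ℝ) : Continuous (k1 ε) := by unfold k1; fun_prop

theorem k1_int (ε : ℝ) (hε : 0 < ε) : ∫⁻ v : ℝ, ENNReal.ofReal (k1 ε v) = 1 := by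
  have hb : 0 < Real.pi ^ 2 / ε := by positivity
  have h2 : ∫ v : ℝ, k1 ε v = 1 := by
    unfold k1
    rw [integral_const_mul, integral_gaussian, ← Real.sqrt_mul (by positivity)]
    have : Real.pi / ε * (Real.pi / (Real.pi ^ 2 / ε)) = 1 := by
      have := Real.pi_pos
      field_simp
    rw [this, Real.sqrt_one]
  rw [← ofReal_integral_eq_lintegral_ofReal ?_ (Filter.Eventually.of_forall fun v => k1_nonneg ε v),
    h2, ENNReal.ofReal_one]
  by_contra hni
  rw [integral_undef hni] at h2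
  norm_num at h2

theorem gauss1 (ε : ℝ) (hε : 0 < ε) (v : ℝ) :
    ∫ c : ℝ, ((Real.exp (-ε * c ^ 2) : ℝ) : ℂ) * ee (v * c) = (k1 ε v : ℂ) := by
  have h := fourierIntegral_gaussian (b := (ε : ℂ)) (by simpa using hε) (2 * Real.pi * v)
  have e1 : ∀ c : ℝ, ((Real.exp (-ε * c ^ 2) : ℝ) : ℂ) * ee (v * c) =
      cexp (I * (2 * Real.pi * v) * c) * cexp (-(ε : ℂ) * c ^ 2) := by
    intro c
    unfold ee
    rw [Complex.ofReal_exp, ← Complex.exp_add, ← Complex.exp_add]
    congr 1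
    push_cast
    ring
  simp_rw [e1]
  rw [h]
  unfold k1
  rw [Real.sqrt_eq_rpow, Complex.ofReal_mul, Complex.ofReal_cpow (by positivity)]
  push_cast
  congr 2
  have hε' : (ε : ℂ) ≠ 0 := by exact_mod_cast hε.ne'
  field_simp
  ring

end Pool.Agent.H972PL
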