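import Mathlib
import Pool.Agent.helper972_pl.K
set_option autoImplicit false

/-! The push forward of planar measure under the differences of the paraboloid. -/

namespace Pool.Agent.H972PL

open MeasureTheory Complex Set Filter Topology
open scoped ENNReal RealInnerProductSpace ComplexConjugate
open Pool.Agent.R412.RT (E Phi Phi_cast Phi_last split_lint)

/-- a point of `ℝ^3` from its horizontal part and its height -/
noncomputable def Sn (h : E 2) (μ : ℝ) : E 3 := WithLp.toLp 2 (Fin.snoc (fun i => h i) μ)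

theorem Sn_cast (h : E 2) (μ : ℝ) (i : Fin 2) : Sn h μ i.castSucc = h i := by simp [Sn]

theorem Sn_last (h : E 2) (μ : ℝ) : Sn h μ (Fin.last 2) = μ :=
  Fin.snoc_last (α := fun _ => ℝ) μ (fun i => h i)

theorem Phi_sub (h y : E 2) : Phi (h + y) - Phi y =
    Sn h ((h 0 ^ 2 + h 1 ^ 2) + (2 * h 0) * y 0 + (2 * h 1) * y 1) := by
  ext i
  refine Fin.lastCases ?_ (fun j => ?_) i
  · show Phi (h + y) (Fin.last 2) - Phi y (Fin.last 2) = _
    rw [Phi_last, Phi_last, Sn_last, Fin.sum_univ_two, Fin.sum_univ_two]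
    simp only [PiLp.add_apply]
    ring
  · show Phi (h + y) j.castSucc - Phi y j.castSucc = _
    rw [Phi_cast, Phi_cast, Sn_cast]
    simp only [PiLp.add_apply]
    ring

theorem Sn_norm_sq (h : E 2) (μ : ℝ) : ‖Sn h μ‖ ^ 2 = ‖h‖ ^ 2 + μ ^ 2 := by
  rw [EuclideanSpace.norm_sq_eq, EuclideanSpace.norm_sq_eq, Fin.sum_univ_castSucc]
  simp only [Sn_cast, Sn_last, Real.norm_eq_abs, sq_abs]

theorem Sn_meas : Measurable fun p : E 2 × ℝ => Sn p.1 p.2 := by
  refine (PiLp.volume_preserving_toLp (Fin 3)).measurable.comp ?_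
  refine measurable_pi_iff.2 fun i => ?_
  refine Fin.lastCases ?_ (fun j => ?_) i
  · simp only [Fin.snoc_last]
    exact measurable_snd
  · simp only [Fin.snoc_castSucc]
    fun_prop

theorem E3_split (F : E 3 → ℝ≥0∞) (hF : Measurable F) :
    ∫⁻ η, F η = ∫⁻ h : E 2, ∫⁻ μ : ℝ, F (Sn h μ) := by
  have h1 : ∫⁻ η, F η = ∫⁻ y : Fin 3 → ℝ, F (WithLp.toLp 2 y) :=
    ((PiLp.volume_preserving_toLp (Fin 3)).lintegral_comp hF).symm
  have hFt : Measurable fun y : Fin 3 → ℝ => F (WithLp.toLp 2 y) :=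
    hF.comp (PiLp.volume_preserving_toLp (Fin 3)).measurable
  have h2 := split_lint (n := 2) (Fin.last 2) (fun y => F (WithLp.toLp 2 y)) hFt
  have h3 : ∀ (a : ℝ) (t : Fin 2 → ℝ),
      F (WithLp.toLp 2 ((Fin.last 2).insertNth a t : Fin 3 → ℝ)) = F (Sn (WithLp.toLp 2 t) a) := by
    intro a t
    congr 1
    unfold Sn
    congr 1
    rw [Fin.insertNth_last']
  rw [h1, h2]
  simp_rw [h3]
  have hm : Measurable (Function.uncurry fun (a : ℝ) (t : Fin 2 → ℝ) =>
      F (Sn (WithLp.toLp 2 t) a)) := by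
    refine hF.comp (Sn_meas.comp (Measurable.prodMk ?_ measurable_fst))
    exact (PiLp.volume_preserving_toLp (Fin 2)).measurable.comp measurable_snd
  rw [lintegral_lintegral_swap hm.aemeasurable]
  exact (PiLp.volume_preserving_toLp (Fin 2)).lintegral_comp_emb
      (MeasurableEquiv.toLp 2 (Fin 2 → ℝ)).measurableEmbedding
      (fun h : E 2 => ∫⁻ μ : ℝ, F (Sn h μ))

theorem E2_split (F : E 2 → ℝ≥0∞) (hF : Measurable F) :
    ∫⁻ y, F y = ∫⁻ a : ℝ, ∫⁻ b : ℝ, F (!₂[a, b]) := by
  have h1 : ∫⁻ y, F y = ∫⁻ y : Fin 2 → ℝ, F (WithLp.toLp 2 y) :=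
    ((PiLp.volume_preserving_toLp (Fin 2)).lintegral_comp hF).symm
  have hFt : Measurable fun y : Fin 2 → ℝ => F (WithLp.toLp 2 y) :=
    hF.comp (PiLp.volume_preserving_toLp (Fin 2)).measurable
  rw [h1, ← (volume_preserving_finTwoArrow ℝ).symm.lintegral_comp hFt, Measure.volume_eq_prod,
    lintegral_prod]
  · rfl
  · exact (hFt.comp (MeasurableEquiv.finTwoArrow (α := ℝ)).symm.measurable).aemeasurable

/-- affine substitution -/
theorem affine_lint (g : ℝ → ℝ≥0∞) (hg : Measurable g) (k c : ℝ) (hc : c ≠ 0) :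
    ∫⁻ a, g (k + c * a) = (ENNReal.ofReal |c|)⁻¹ * ∫⁻ a, g a := by
  have h5 := Measure.map_addHaar_smul (volume : Measure ℝ) hc
  have hg' : Measurable fun a => g (k + a) := hg.comp (measurable_const.add measurable_id)
  have h6 : ∫⁻ a, g (k + a) ∂(Measure.map (c • ·) (volume : Measure ℝ)) =
      ∫⁻ a, g (k + c * a) := lintegral_map hg' (measurable_const_smul c)
  rw [← h6, h5, lintegral_smul_measure, smul_eq_mul, Module.finrank_self, pow_one, abs_inv,
    ENNReal.ofReal_inv_of_pos (abs_pos.2 hc), lintegral_add_left_eq_self]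

/-- the inner integral of the density estimate -/
theorem inner_est (g : ℝ → ℝ≥0∞) (hg : Measurable g) (k c c' : ℝ) (hc : c ≠ 0) :
    ∫⁻ b in Ioo (-1 : ℝ) 1, ∫⁻ a : ℝ, g (k + c * a + c' * b) ≤
      2 * (ENNReal.ofReal |c|)⁻¹ * ∫⁻ a, g a := by
  have h1 : ∀ b : ℝ, ∫⁻ a : ℝ, g (k + c * a + c' * b) = (ENNReal.ofReal |c|)⁻¹ * ∫⁻ a, g a := by
    intro b
    rw [← affine_lint g hg (k + c' * b) c hc]
    refine lintegral_congr fun a => ?_
    congr 1
    ring
  simp_rw [h1]
  rw [setLIntegral_const, Real.volume_Ioo]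
  norm_num
  rw [mul_comm, ← mul_assoc]

theorem two_dir (g : ℝ → ℝ≥0∞) (hg : Measurable g) (k c c' : ℝ) (hc : 0 < max |c| |c'|) :
    ∫⁻ a in Ioo (-1 : ℝ) 1, ∫⁻ b in Ioo (-1 : ℝ) 1, g (k + c * a + c' * b) ≤
      2 * (ENNReal.ofReal (max |c| |c'|))⁻¹ * ∫⁻ a, g a := by
  rcases le_total |c| |c'| with h | h
  · rw [max_eq_right h] at hc ⊢
    have hc0 : c' ≠ 0 := abs_pos.1 hc
    refine le_trans ?_ (inner_est g hg k c' c hc0)
    refine lintegral_mono fun a => ?_
    refine (setLIntegral_le_lintegral _ _).trans (le_of_eq ?_)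
    refine lintegral_congr fun b => ?_
    congr 1
    ring
  · rw [max_eq_left h] at hc ⊢
    have hc0 : c ≠ 0 := abs_pos.1 hc
    refine le_trans ?_ (inner_est g hg k c c' hc0)
    have hm : Measurable (Function.uncurry fun a b : ℝ => g (k + c * a + c' * b)) :=
      hg.comp (by fun_prop : Measurable fun p : ℝ × ℝ => k + c * p.1 + c' * p.2)
    rw [lintegral_lintegral_swap hm.aemeasurable]
    exact lintegral_mono fun b => setLIntegral_le_lintegral _ _

/-- the majorant -/
noncomputable def G5 (η : E 3) : ℝ≥0∞ :=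
  (Metric.closedBall (0 : E 3) 5).indicator (fun η => ENNReal.ofReal (4 / ‖η‖)) η

theorem G5_meas : Measurable G5 := by
  unfold G5
  exact Measurable.indicator (by fun_prop) Metric.isClosed_closedBall.measurableSet

/-- the indicator function of the unit disc -/
noncomputable def B1 (x : E 2) : ℝ≥0∞ := (Metric.ball (0 : E 2) 1).indicator 1 x

theorem B1_meas : Measurable B1 :=
  measurable_one.indicator Metric.isOpen_ball.measurableSet

theorem B1_le (x : E 2) : B1 x ≤ 1 := by
  unfold B1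
  by_cases hx : x ∈ Metric.ball (0 : E 2) 1
  · rw [indicator_of_mem hx]; exact le_rfl
  · rw [indicator_of_notMem hx]; exact zero_le_one

theorem coord_le (x : E 2) (i : Fin 2) : |x i| ≤ ‖x‖ := by
  have := PiLp.norm_apply_le x i
  simpa using this

/-- the density estimate for a fixed difference -/
theorem fix_est (H : E 3 → ℝ≥0∞) (hH : Measurable H) (h : E 2) (hh : h ≠ 0) :
    ∫⁻ y, B1 (h + y) * B1 y * H (Phi (h + y) - Phi y) ≤
      ∫⁻ μ : ℝ, G5 (Sn h μ) * H (Sn h μ) := by
  have hSm : Measurable fun μ : ℝ => Sn h μ :=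
    Sn_meas.comp (measurable_const.prodMk measurable_id)
  set S : Set ℝ := {μ | |μ| ≤ 2 * ‖h‖ ∧ ‖h‖ ≤ 2} with hS
  have hSms : MeasurableSet S :=
    (measurableSet_le (f := fun μ : ℝ => |μ|) (g := fun _ => 2 * ‖h‖) (by fun_prop)
      measurable_const).inter (MeasurableSet.const (‖h‖ ≤ 2))
  set g : ℝ → ℝ≥0∞ := S.indicator fun μ => H (Sn h μ) with hg
  have hgm : Measurable g := (hH.comp hSm).indicator hSms
  set k : ℝ := h 0 ^ 2 + h 1 ^ 2 with hk
  have hn : ‖h‖ ^ 2 = h 0 ^ 2 + h 1 ^ 2 := by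
    rw [EuclideanSpace.norm_sq_eq, Fin.sum_univ_two]
    simp only [Real.norm_eq_abs, sq_abs]
  set m : ℝ := max |h 0| |h 1| with hm
  have hm0 : 0 < m := by
    rcases lt_or_ge 0 m with h1 | h1
    · exact h1
    · exfalso
      apply hh
      have a0 : |h 0| ≤ 0 := (le_max_left _ _).trans h1
      have a1 : |h 1| ≤ 0 := (le_max_right _ _).trans h1
      have b0 : h 0 = 0 := abs_nonpos_iff.1 a0
      have b1 : h 1 = 0 := abs_nonpos_iff.1 a1
      ext i
      fin_cases i
      · exact b0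
      · exact b1
  have hnm : ‖h‖ ^ 2 ≤ 2 * m ^ 2 := by
    have a0 : |h 0| ^ 2 ≤ m ^ 2 := pow_le_pow_left₀ (abs_nonneg _) (le_max_left _ _) 2
    have a1 : |h 1| ^ 2 ≤ m ^ 2 := pow_le_pow_left₀ (abs_nonneg _) (le_max_right _ _) 2
    rw [sq_abs] at a0 a1
    rw [hn]
    linarith
  have hmax : max |2 * h 0| |2 * h 1| = 2 * m := by
    rw [abs_mul, abs_mul, abs_two, hm, mul_max_of_nonneg _ _ (by norm_num)]
  -- pointwise
  have hpt : ∀ y : E 2, B1 (h + y) * B1 y * H (Phi (h + y) - Phi y) ≤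
      (Ioo (-1 : ℝ) 1).indicator (fun a => (Ioo (-1 : ℝ) 1).indicator
        (fun b => g (k + (2 * h 0) * a + (2 * h 1) * b)) (y 1)) (y 0) := by
    intro y
    by_cases hy : y ∈ Metric.ball (0 : E 2) 1
    · by_cases hy2 : h + y ∈ Metric.ball (0 : E 2) 1
      · rw [Metric.mem_ball, dist_zero_right] at hy hy2
        have i0 : y 0 ∈ Ioo (-1 : ℝ) 1 := by
          rw [mem_Ioo, ← abs_lt]; exact (coord_le y 0).trans_lt hy
        have i1 : y 1 ∈ Ioo (-1 : ℝ) 1 := by
          rw [mem_Ioo, ← abs_lt]; exact (coord_le y 1).trans_lt hy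
        rw [indicator_of_mem i0, indicator_of_mem i1]
        set μ : ℝ := k + (2 * h 0) * y 0 + (2 * h 1) * y 1 with hμ
        have hh2 : ‖h‖ ≤ 2 := by
          have : h = (h + y) - y := by abel
          rw [this]
          exact (norm_sub_le _ _).trans (by linarith)
        have hμe : μ = ‖h + y‖ ^ 2 - ‖y‖ ^ 2 := by
          rw [EuclideanSpace.norm_sq_eq, EuclideanSpace.norm_sq_eq, Fin.sum_univ_two,
            Fin.sum_univ_two]
          simp only [Real.norm_eq_abs, sq_abs, PiLp.add_apply]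
          rw [hμ, hk]
          ring
        have hμ2 : |μ| ≤ 2 * ‖h‖ := by
          have e1 : μ = (‖h + y‖ - ‖y‖) * (‖h + y‖ + ‖y‖) := by rw [hμe]; ring
          rw [e1, abs_mul]
          have e2 : |‖h + y‖ - ‖y‖| ≤ ‖h‖ := by
            have := abs_norm_sub_norm_le (h + y) y
            rwa [add_sub_cancel_right] at this
          have e3 : |‖h + y‖ + ‖y‖| ≤ 2 := by
            rw [abs_of_nonneg (by positivity)]
            linarith
          calc |‖h + y‖ - ‖y‖| * |‖h + y‖ + ‖y‖| ≤ ‖h‖ * 2 :=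
                mul_le_mul e2 e3 (abs_nonneg _) (norm_nonneg _)
            _ = 2 * ‖h‖ := by ring
        have hμS : μ ∈ S := ⟨hμ2, hh2⟩
        rw [hg, indicator_of_mem hμS, Phi_sub]
        calc B1 (h + y) * B1 y * H (Sn h μ) ≤ 1 * 1 * H (Sn h μ) := by
              gcongr
              · exact B1_le _
              · exact B1_le _
          _ = H (Sn h μ) := by rw [one_mul, one_mul]
      · have : B1 (h + y) = 0 := by unfold B1; rw [indicator_of_notMem hy2]
        rw [this, zero_mul, zero_mul]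
        exact zero_le
    · have : B1 y = 0 := by unfold B1; rw [indicator_of_notMem hy]
      rw [this, mul_zero, zero_mul]
      exact zero_le
  have hFm : Measurable fun y : E 2 => (Ioo (-1 : ℝ) 1).indicator (fun a => (Ioo (-1 : ℝ) 1).indicator
        (fun b => g (k + (2 * h 0) * a + (2 * h 1) * b)) (y 1)) (y 0) := by
    have e1 : (fun y : E 2 => (Ioo (-1 : ℝ) 1).indicator (fun a => (Ioo (-1 : ℝ) 1).indicator
        (fun b => g (k + (2 * h 0) * a + (2 * h 1) * b)) (y 1)) (y 0)) =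
        ({y : E 2 | y 0 ∈ Ioo (-1 : ℝ) 1 ∧ y 1 ∈ Ioo (-1 : ℝ) 1}).indicator
          (fun y : E 2 => g (k + (2 * h 0) * y 0 + (2 * h 1) * y 1)) := by
      ext y
      by_cases h0 : y 0 ∈ Ioo (-1 : ℝ) 1 <;> by_cases h1 : y 1 ∈ Ioo (-1 : ℝ) 1
      · rw [indicator_of_mem h0, indicator_of_mem h1, indicator_of_mem]
        exact ⟨h0, h1⟩
      · rw [indicator_of_mem h0, indicator_of_notMem h1, indicator_of_notMem]
        exact fun h => h1 h.2
      · rw [indicator_of_notMem h0, indicator_of_notMem]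
        exact fun h => h0 h.1
      · rw [indicator_of_notMem h0, indicator_of_notMem]
        exact fun h => h0 h.1
    rw [e1]
    refine Measurable.indicator (hgm.comp (by fun_prop)) ?_
    refine MeasurableSet.inter ?_ ?_
    · exact (by fun_prop : Measurable fun y : E 2 => y 0) measurableSet_Ioo
    · exact (by fun_prop : Measurable fun y : E 2 => y 1) measurableSet_Ioo
  calc ∫⁻ y, B1 (h + y) * B1 y * H (Phi (h + y) - Phi y)
      ≤ ∫⁻ y : E 2, (Ioo (-1 : ℝ) 1).indicator (fun a => (Ioo (-1 : ℝ) 1).indicator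
        (fun b => g (k + (2 * h 0) * a + (2 * h 1) * b)) (y 1)) (y 0) := lintegral_mono hpt
    _ = ∫⁻ a in Ioo (-1 : ℝ) 1, ∫⁻ b in Ioo (-1 : ℝ) 1, g (k + (2 * h 0) * a + (2 * h 1) * b) := by
        rw [E2_split _ hFm, ← lintegral_indicator measurableSet_Ioo]
        refine lintegral_congr fun a => ?_
        by_cases ha : a ∈ Ioo (-1 : ℝ) 1
        · rw [indicator_of_mem ha, ← lintegral_indicator measurableSet_Ioo]
          refine lintegral_congr fun b => ?_
          have e0 : (!₂[a, b] : E 2) 0 = a := rfl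
          have e1 : (!₂[a, b] : E 2) 1 = b := rfl
          rw [e0, e1, indicator_of_mem ha]
        · rw [indicator_of_notMem ha]
          refine lintegral_eq_zero_of_ae_eq_zero (Eventually.of_forall fun b => ?_)
          show (Ioo (-1 : ℝ) 1).indicator _ a = 0
          rw [indicator_of_notMem ha]
    _ ≤ 2 * (ENNReal.ofReal (2 * m))⁻¹ * ∫⁻ a, g a := by
        rw [← hmax]
        exact two_dir g hgm k _ _ (by rw [hmax]; positivity)
    _ = ∫⁻ a, ENNReal.ofReal (1 / m) * g a := by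
        rw [lintegral_const_mul _ hgm]
        congr 1
        rw [ENNReal.ofReal_mul (by norm_num), ENNReal.mul_inv (by simp) (by simp), ENNReal.ofReal_ofNat,
          ← mul_assoc, ENNReal.mul_inv_cancel (by norm_num) (by norm_num), one_mul, one_div,
          ENNReal.ofReal_inv_of_pos hm0]
    _ ≤ _ := by
        refine lintegral_mono fun μ => ?_
        simp only [hg]
        by_cases hμ : μ ∈ S
        · rw [indicator_of_mem hμ]
          refine mul_le_mul_left ?_ _
          have hμ' : |μ| ≤ 2 * ‖h‖ ∧ ‖h‖ ≤ 2 := hμ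
          have e1 := Sn_norm_sq h μ
          have e2 : μ ^ 2 ≤ 4 * ‖h‖ ^ 2 := by
            rw [← sq_abs]
            nlinarith [abs_nonneg μ, norm_nonneg h]
          have hh0 : 0 < ‖h‖ := norm_pos_iff.2 hh
          have e3 : 0 < ‖Sn h μ‖ := by
            have h5 : 0 < ‖Sn h μ‖ ^ 2 := by rw [e1]; positivity
            refine lt_of_le_of_ne (norm_nonneg _) fun h0 => ?_
            rw [← h0] at h5
            norm_num at h5
          have e4 : ‖Sn h μ‖ ≤ 4 * m := by
            refine (pow_le_pow_iff_left₀ e3.le (by positivity) two_ne_zero).1 ?_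
            rw [e1]
            nlinarith
          have e5 : ‖Sn h μ‖ ≤ 5 := by
            refine (pow_le_pow_iff_left₀ e3.le (by positivity) two_ne_zero).1 ?_
            rw [e1]
            nlinarith [hμ'.2]
          unfold G5
          rw [indicator_of_mem (by rw [Metric.mem_closedBall, dist_zero_right]; exact e5)]
          refine ENNReal.ofReal_le_ofReal ?_
          rw [div_le_div_iff₀ hm0 e3]
          linarith
        · rw [indicator_of_notMem hμ, mul_zero]
          exact zero_le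


theorem hPm : Measurable (Phi : E 2 → E 3) := Pool.Agent.R412.RS.Phi_cont.measurable

theorem dm1 (H : E 3 → ℝ≥0∞) (hH : Measurable H) :
    Measurable fun p : E 2 × E 2 => B1 p.1 * B1 p.2 * H (Phi p.1 - Phi p.2) := by
  have hm0 : Measurable fun p : E 2 × E 2 => Phi p.1 - Phi p.2 :=
    (hPm.comp measurable_fst).sub (hPm.comp measurable_snd)
  exact ((B1_meas.comp measurable_fst).mul (B1_meas.comp measurable_snd)).mul (hH.comp hm0)

theorem dm2 (H : E 3 → ℝ≥0∞) (hH : Measurable H) :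
    Measurable fun p : E 2 × E 2 => B1 (p.2 + p.1) * B1 p.1 * H (Phi (p.2 + p.1) - Phi p.1) := by
  have ha : Measurable fun p : E 2 × E 2 => p.2 + p.1 := measurable_snd.add measurable_fst
  have hm0 : Measurable fun p : E 2 × E 2 => Phi (p.2 + p.1) - Phi p.1 :=
    (hPm.comp ha).sub (hPm.comp measurable_fst)
  exact ((B1_meas.comp ha).mul (B1_meas.comp measurable_fst)).mul (hH.comp hm0)

/-- **the density estimate** -/
theorem density (H : E 3 → ℝ≥0∞) (hH : Measurable H) :
    ∫⁻ x : E 2, ∫⁻ y : E 2, B1 x * B1 y * H (Phi x - Phi y) ≤ ∫⁻ η, G5 η * H η := by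
  rw [lintegral_lintegral_swap (f := fun x y : E 2 => B1 x * B1 y * H (Phi x - Phi y))
    (dm1 H hH).aemeasurable]
  have h1 : ∀ y : E 2, ∫⁻ x, B1 x * B1 y * H (Phi x - Phi y) =
      ∫⁻ h, B1 (h + y) * B1 y * H (Phi (h + y) - Phi y) := by
    intro y
    exact (lintegral_add_right_eq_self (fun x => B1 x * B1 y * H (Phi x - Phi y)) y).symm
  simp_rw [h1]
  rw [lintegral_lintegral_swap (f := fun y h : E 2 =>
    B1 (h + y) * B1 y * H (Phi (h + y) - Phi y)) (dm2 H hH).aemeasurable,
    E3_split (fun η => G5 η * H η) (G5_meas.mul hH)]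
  refine lintegral_mono_ae ?_
  have h2 : ∀ᵐ h : E 2, h ≠ 0 := by
    rw [ae_iff]
    simp
  filter_upwards [h2] with h hh
  exact fix_est H hH h hh

end Pool.Agent.H972PL
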