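import Mathlib
import Pool.Agent.helper972_pl.D
set_option autoImplicit false

/-! The cylinder estimate: tools. -/

namespace Pool.Agent.H972PL

open MeasureTheory Complex Set Filter Topology
open scoped ENNReal RealInnerProductSpace ComplexConjugate
open Pool.Agent.R412.RT (E ee ee_norm ee_add ee_conj ee_meas ee_cont planch Phi ph ph_cont Ey Ey_meas
  split_lint inner_eq cov inner_repr_symm)
open Pool.Agent.R412.RH (Nice)

/-- Plancherel's inequality in the plane -/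
theorem planch2 (H : ℝ × ℝ → ℂ) (hH : Integrable H) :
    ∫⁻ β : ℝ × ℝ, ‖∫ u : ℝ × ℝ, ee (u.1 * β.1 + u.2 * β.2) * H u‖ₑ ^ 2 ≤ ∫⁻ u, ‖H u‖ₑ ^ 2 := by
  set T : E 2 ≃ᵐ ℝ × ℝ := (MeasurableEquiv.toLp 2 (Fin 2 → ℝ)).symm.trans
    MeasurableEquiv.finTwoArrow with hT
  have hTm : MeasurePreserving T volume volume :=
    (volume_preserving_finTwoArrow ℝ).comp (PiLp.volume_preserving_ofLp (Fin 2))
  have hTi : ∀ x y : E 2, ⟪x, y⟫ = (T x).1 * (T y).1 + (T x).2 * (T y).2 := by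
    intro x y
    rw [inner_eq, Fin.sum_univ_two]
    rfl
  have hg : Integrable fun x : E 2 => H (T x) :=
    (hTm.integrable_comp_emb T.measurableEmbedding).2 hH
  have hdet : (ContinuousLinearMap.id ℝ (E 2)).det = 1 := by
    unfold ContinuousLinearMap.det
    simp
  have h := planch (id : E 2 → E 2) measurable_id (fun _ => ContinuousLinearMap.id ℝ (E 2))
    univ MeasurableSet.univ (fun x _ => hasFDerivWithinAt_id x univ) (injOn_id _)
    (fun x _ => by rw [hdet]; exact one_ne_zero) (by simp) (fun x => H (T x)) hg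
    (fun x hx => absurd (mem_univ x) hx)
  have h1 : ∀ t : E 2, ∫ x : E 2, ee ⟪id x, t⟫ * H (T x) =
      ∫ u : ℝ × ℝ, ee (u.1 * (T t).1 + u.2 * (T t).2) * H u := by
    intro t
    rw [← hTm.integral_comp T.measurableEmbedding]
    refine integral_congr_ae (Eventually.of_forall fun x => ?_)
    simp only [id, hTi]
  simp_rw [h1] at h
  have h2 : ∫⁻ t : E 2, ‖∫ u : ℝ × ℝ, ee (u.1 * (T t).1 + u.2 * (T t).2) * H u‖ₑ ^ 2 =
      ∫⁻ β : ℝ × ℝ, ‖∫ u : ℝ × ℝ, ee (u.1 * β.1 + u.2 * β.2) * H u‖ₑ ^ 2 :=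
    hTm.lintegral_comp_emb T.measurableEmbedding
      (fun β : ℝ × ℝ => ‖∫ u : ℝ × ℝ, ee (u.1 * β.1 + u.2 * β.2) * H u‖ₑ ^ 2)
  have h3 : ∫⁻ x : E 2, ‖H (T x)‖ₑ ^ 2 / ENNReal.ofReal |(ContinuousLinearMap.id ℝ (E 2)).det| =
      ∫⁻ u, ‖H u‖ₑ ^ 2 := by
    rw [← hTm.lintegral_comp_emb T.measurableEmbedding (fun u => ‖H u‖ₑ ^ 2)]
    refine lintegral_congr fun x => ?_
    rw [hdet, abs_one, ENNReal.ofReal_one, div_one]
  rw [h2, h3] at h
  exact h

/-- the Fourier transform of the indicator function of a planar set -/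
noncomputable def Ah (A : Set (ℝ × ℝ)) (p : ℝ × ℝ) : ℂ :=
  ∫ u : ℝ × ℝ, ee (u.1 * p.1 + u.2 * p.2) * A.indicator (fun _ => (1 : ℂ)) u

theorem ind_enorm (A : Set (ℝ × ℝ)) (hA : MeasurableSet A) (k : ℕ) (hk : k ≠ 0) :
    ∫⁻ u, ‖A.indicator (fun _ => (1 : ℂ)) u‖ₑ ^ k = volume A := by
  rw [← lintegral_indicator_one hA]
  refine lintegral_congr fun u => ?_
  by_cases hu : u ∈ A
  · rw [indicator_of_mem hu, indicator_of_mem hu]
    simp
  · rw [indicator_of_notMem hu, indicator_of_notMem hu]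
    simp [hk]

theorem ind_integrable (A : Set (ℝ × ℝ)) (hA : MeasurableSet A) (hAt : volume A ≠ ∞) :
    Integrable (A.indicator (fun _ => (1 : ℂ))) :=
  (integrable_indicator_iff hA).2 (integrableOn_const hAt)

theorem Ah_two (A : Set (ℝ × ℝ)) (hA : MeasurableSet A) (hAt : volume A ≠ ∞) :
    ∫⁻ p, ‖Ah A p‖ₑ ^ 2 ≤ volume A :=
  (planch2 _ (ind_integrable A hA hAt)).trans (ind_enorm A hA 2 two_ne_zero).le

theorem Ah_sup (A : Set (ℝ × ℝ)) (hA : MeasurableSet A) (p : ℝ × ℝ) :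
    ‖Ah A p‖ₑ ≤ volume A := by
  unfold Ah
  refine (enorm_integral_le_lintegral_enorm _).trans (le_of_eq ?_)
  rw [← ind_enorm A hA 1 one_ne_zero]
  refine lintegral_congr fun u => ?_
  rw [enorm_mul, ← ofReal_norm (ee _), ee_norm, ENNReal.ofReal_one, one_mul, pow_one]

theorem Ah_meas (A : Set (ℝ × ℝ)) (hA : MeasurableSet A) : Measurable (Ah A) := by
  have h1 : StronglyMeasurable (Function.uncurry fun (p u : ℝ × ℝ) =>
      ee (u.1 * p.1 + u.2 * p.2) * A.indicator (fun _ => (1 : ℂ)) u) := by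
    refine Measurable.stronglyMeasurable ?_
    refine (ee_meas.comp ?_).mul ((measurable_const.indicator hA).comp measurable_snd)
    fun_prop
  exact h1.integral_prod_right.measurable

/-- one factor of the singular kernel -/
noncomputable def ka (z : ℝ) : ℝ≥0∞ :=
  (Icc (-5 : ℝ) 5).indicator (fun z => (ENNReal.ofReal |z| ^ (1 / 2 : ℝ))⁻¹) z

theorem ka_meas : Measurable ka := by
  unfold ka
  exact Measurable.indicator (by fun_prop) measurableSet_Icc

/-- integrability of the powers of the singular kernel -/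
theorem ka_int (s : ℝ) (hs : 0 < s) (hs2 : s < 2) : ∫⁻ z, ka z ^ s < ∞ := by
  have hex : -1 < -(s / 2) := by linarith
  have h0 : ∫⁻ z in Ioc (0 : ℝ) 5, ENNReal.ofReal (z ^ (-(s / 2))) < ∞ := by
    have hint : IntervalIntegrable (fun t : ℝ => t ^ (-(s / 2))) volume 0 5 :=
      intervalIntegral.intervalIntegrable_rpow' hex
    rw [intervalIntegrable_iff_integrableOn_Ioc_of_le (by norm_num)] at hint
    exact hint.lintegral_lt_top
  have h1 : ∀ z : ℝ, z ≠ 0 → ka z ^ s ≤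
      (Ioc (0 : ℝ) 5).indicator (fun z => ENNReal.ofReal (z ^ (-(s / 2)))) z +
      (Ioc (0 : ℝ) 5).indicator (fun z => ENNReal.ofReal (z ^ (-(s / 2)))) (-z) := by
    intro z hz
    have e1 : ∀ w : ℝ, 0 < w → ((ENNReal.ofReal |w| ^ (1 / 2 : ℝ))⁻¹) ^ s =
        ENNReal.ofReal (w ^ (-(s / 2))) := by
      intro w hw
      rw [abs_of_pos hw, ← ENNReal.rpow_neg, ← ENNReal.rpow_mul, ENNReal.ofReal_rpow_of_pos hw]
      congr 2
      ring
    unfold ka
    rcases lt_or_gt_of_ne hz with h | h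
    · by_cases h5 : z ∈ Icc (-5 : ℝ) 5
      · rw [indicator_of_mem h5]
        have h6 : -z ∈ Ioc (0 : ℝ) 5 := ⟨by linarith, by linarith [h5.1]⟩
        rw [indicator_of_mem h6, ← e1 (-z) (by linarith), abs_neg]
        exact le_add_self
      · rw [indicator_of_notMem h5, ENNReal.zero_rpow_of_pos hs]
        exact zero_le
    · by_cases h5 : z ∈ Icc (-5 : ℝ) 5
      · rw [indicator_of_mem h5]
        have h6 : z ∈ Ioc (0 : ℝ) 5 := ⟨h, h5.2⟩
        rw [indicator_of_mem h6, ← e1 z h]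
        exact le_self_add
      · rw [indicator_of_notMem h5, ENNReal.zero_rpow_of_pos hs]
        exact zero_le
  have hgm : Measurable fun z : ℝ =>
      (Ioc (0 : ℝ) 5).indicator (fun z => ENNReal.ofReal (z ^ (-(s / 2)))) z :=
    Measurable.indicator (by fun_prop) measurableSet_Ioc
  have h2 : ∀ᵐ z : ℝ, z ≠ 0 := by
    rw [ae_iff]
    simp
  calc ∫⁻ z, ka z ^ s ≤ ∫⁻ z : ℝ,
      ((Ioc (0 : ℝ) 5).indicator (fun z => ENNReal.ofReal (z ^ (-(s / 2)))) z +
      (Ioc (0 : ℝ) 5).indicator (fun z => ENNReal.ofReal (z ^ (-(s / 2)))) (-z)) := by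
        refine lintegral_mono_ae ?_
        filter_upwards [h2] with z hz using h1 z hz
    _ = (∫⁻ z in Ioc (0 : ℝ) 5, ENNReal.ofReal (z ^ (-(s / 2)))) +
        ∫⁻ z in Ioc (0 : ℝ) 5, ENNReal.ofReal (z ^ (-(s / 2))) := by
        rw [lintegral_add_left hgm, lintegral_indicator measurableSet_Ioc]
        congr 1
        rw [lintegral_neg_eq_self (fun z => (Ioc (0 : ℝ) 5).indicator
          (fun z => ENNReal.ofReal (z ^ (-(s / 2)))) z), lintegral_indicator measurableSet_Ioc]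
    _ < ∞ := ENNReal.add_lt_top.2 ⟨h0, h0⟩

/-- the Hoelder step -/
theorem holder_step (τ : ℝ) (h1 : 1 / 2 < τ) (h2 : τ < 1) (A : Set (ℝ × ℝ))
    (hA : MeasurableSet A) (hAt : volume A ≠ ∞) :
    ∫⁻ p : ℝ × ℝ, (ka p.1 * ka p.2) * ‖Ah A p‖ₑ ≤
      ((∫⁻ z, ka z ^ (1 / τ)) ^ 2) ^ τ * volume A ^ τ := by
  have hτ0 : 0 < τ := by linarith
  have hpq : Real.HolderConjugate (1 / τ) (1 / (1 - τ)) := by
    rw [Real.holderConjugate_iff]
    constructor
    · rw [lt_div_iff₀ hτ0]; linarith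
    · rw [one_div, one_div, inv_inv, inv_inv]; ring
  have hm1 : Measurable fun p : ℝ × ℝ => ka p.1 * ka p.2 :=
    (ka_meas.comp measurable_fst).mul (ka_meas.comp measurable_snd)
  have hm2 : Measurable fun p : ℝ × ℝ => ‖Ah A p‖ₑ := (Ah_meas A hA).enorm
  have h := ENNReal.lintegral_mul_le_Lp_mul_Lq volume hpq hm1.aemeasurable hm2.aemeasurable
  simp only [Pi.mul_apply, one_div_one_div] at h
  refine h.trans (mul_le_mul' (le_of_eq ?_) ?_)
  · congr 1
    have e1 : ∀ p : ℝ × ℝ, (ka p.1 * ka p.2) ^ (1 / τ) = ka p.1 ^ (1 / τ) * ka p.2 ^ (1 / τ) :=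
      fun p => ENNReal.mul_rpow_of_nonneg _ _ (by positivity)
    simp_rw [e1]
    rw [Measure.volume_eq_prod, lintegral_prod_mul (ka_meas.pow_const _).aemeasurable
      (ka_meas.pow_const _).aemeasurable, sq]
  · have hs' : 0 < 1 - τ := by linarith
    have h2s : 2 < 1 / (1 - τ) := by rw [lt_div_iff₀ hs']; linarith
    have e2 : ∀ p, ‖Ah A p‖ₑ ^ (1 / (1 - τ)) ≤
        volume A ^ (1 / (1 - τ) - 2) * ‖Ah A p‖ₑ ^ 2 := by
      intro p
      have e3 : ‖Ah A p‖ₑ ^ (1 / (1 - τ)) = ‖Ah A p‖ₑ ^ (1 / (1 - τ) - 2) * ‖Ah A p‖ₑ ^ (2 : ℝ) := by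
        rw [← ENNReal.rpow_add_of_nonneg _ _ (by linarith) (by norm_num)]
        congr 1
        ring
      rw [e3, ENNReal.rpow_two]
      exact mul_le_mul_left (ENNReal.rpow_le_rpow (Ah_sup A hA p) (by linarith)) _
    have e4 : ∫⁻ p, ‖Ah A p‖ₑ ^ (1 / (1 - τ)) ≤ volume A ^ (1 / (1 - τ) - 1) := by
      calc ∫⁻ p, ‖Ah A p‖ₑ ^ (1 / (1 - τ)) ≤
            ∫⁻ p, volume A ^ (1 / (1 - τ) - 2) * ‖Ah A p‖ₑ ^ 2 := lintegral_mono e2
        _ = volume A ^ (1 / (1 - τ) - 2) * ∫⁻ p, ‖Ah A p‖ₑ ^ 2 :=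
            lintegral_const_mul _ (hm2.pow_const 2)
        _ ≤ volume A ^ (1 / (1 - τ) - 2) * volume A ^ (1 : ℝ) := by
            rw [ENNReal.rpow_one]
            exact mul_le_mul_right (Ah_two A hA hAt) _
        _ = _ := by
            rw [← ENNReal.rpow_add_of_nonneg _ _ (by linarith) (by norm_num)]
            congr 1
            ring
    refine (ENNReal.rpow_le_rpow e4 hs'.le).trans (le_of_eq ?_)
    rw [← ENNReal.rpow_mul]
    congr 1
    field_simp
    ring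

end Pool.Agent.H972PL
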