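import Mathlib
import Pool.Agent.helper972_pl.C1
set_option autoImplicit false

/-! The cylinder estimate. -/

namespace Pool.Agent.H972PL

open MeasureTheory Complex Set Filter Topology
open scoped ENNReal RealInnerProductSpace ComplexConjugate
open Pool.Agent.R412.RT (E ee ee_norm ee_add ee_conj ee_meas ee_cont planch Phi ph ph_cont Ey Ey_meas
  split_lint inner_eq cov inner_repr_symm)
open Pool.Agent.R412.RH (Nice)

variable (e : OrthonormalBasis (Fin 3) ℝ (E 3))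

/-- the phase along the cylinder -/
noncomputable def La (d0 d1 : ℝ) (x : E 2) : ℝ := d0 * ph e 0 x + d1 * ph e 1 x + ph e 2 x

theorem La_meas (d0 d1 : ℝ) : Measurable (La e d0 d1) := by
  unfold La
  exact (((ph_cont e 0).measurable.const_mul d0).add ((ph_cont e 1).measurable.const_mul d1)).add
    (ph_cont e 2).measurable

/-- the whole phase -/
noncomputable def th (d0 d1 : ℝ) (q : (ℝ × ℝ) × ℝ) (x : E 2) : ℝ :=
  (q.1.1 * ph e 0 x + q.1.2 * ph e 1 x) + La e d0 d1 x * q.2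

theorem th_meas (d0 d1 : ℝ) : Measurable (Function.uncurry (th e d0 d1)) := by
  unfold th
  refine Measurable.add (Measurable.add ?_ ?_) ?_
  · exact (measurable_fst.comp (measurable_fst.comp measurable_fst)).mul
      ((ph_cont e 0).measurable.comp measurable_snd)
  · exact (measurable_snd.comp (measurable_fst.comp measurable_fst)).mul
      ((ph_cont e 1).measurable.comp measurable_snd)
  · exact ((La_meas e d0 d1).comp measurable_snd).mul (measurable_snd.comp measurable_fst)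

/-- the regularised indicator function of the cylinder -/
noncomputable def kk (A : Set (ℝ × ℝ)) (ε : ℝ) (q : (ℝ × ℝ) × ℝ) : ℝ :=
  A.indicator (fun _ => (1 : ℝ)) q.1 * Real.exp (-ε * q.2 ^ 2)

theorem kk_nonneg (A : Set (ℝ × ℝ)) (ε : ℝ) (q : (ℝ × ℝ) × ℝ) : 0 ≤ kk A ε q := by
  unfold kk
  refine mul_nonneg (indicator_nonneg (fun _ _ => zero_le_one) _) (Real.exp_nonneg _)

theorem kk_meas (A : Set (ℝ × ℝ)) (hA : MeasurableSet A) (ε : ℝ) : Measurable (kk A ε) := by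
  unfold kk
  refine Measurable.mul ((measurable_const.indicator hA).comp measurable_fst) ?_
  fun_prop

theorem kk_int (A : Set (ℝ × ℝ)) (hA : MeasurableSet A) (hAt : volume A ≠ ∞) (ε : ℝ)
    (hε : 0 < ε) : Integrable (kk A ε) := by
  unfold kk
  rw [Measure.volume_eq_prod]
  refine Integrable.mul_prod (f := A.indicator (fun _ => (1 : ℝ)))
    (g := fun c : ℝ => Real.exp (-ε * c ^ 2)) ?_ (integrable_exp_neg_mul_sq hε)
  exact (integrable_indicator_iff hA).2 (integrableOn_const hAt)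

theorem kk_of (A : Set (ℝ × ℝ)) (ε : ℝ) (q : (ℝ × ℝ) × ℝ) :
    ENNReal.ofReal (kk A ε q) = A.indicator (1 : ℝ × ℝ → ℝ≥0∞) q.1 *
      ENNReal.ofReal (Real.exp (-ε * q.2 ^ 2)) := by
  unfold kk
  by_cases hq : q.1 ∈ A
  · rw [indicator_of_mem hq, indicator_of_mem hq, one_mul, Pi.one_apply, one_mul]
  · rw [indicator_of_notMem hq, indicator_of_notMem hq, zero_mul, zero_mul, ENNReal.ofReal_zero]

theorem ker_eq (d0 d1 : ℝ) (A : Set (ℝ × ℝ)) (ε : ℝ) (hε : 0 < ε) (x y : E 2) :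
    ∫ q : (ℝ × ℝ) × ℝ, (kk A ε q : ℂ) * ee (th e d0 d1 q x - th e d0 d1 q y) =
      Ah A (ph e 0 x - ph e 0 y, ph e 1 x - ph e 1 y) *
        (k1 ε (La e d0 d1 x - La e d0 d1 y) : ℂ) := by
  rw [← gauss1 ε hε]
  unfold Ah
  rw [Measure.volume_eq_prod, ← integral_prod_mul]
  refine integral_congr_ae (Eventually.of_forall fun q => ?_)
  simp only
  have e1 : th e d0 d1 q x - th e d0 d1 q y =
      (q.1.1 * (ph e 0 x - ph e 0 y) + q.1.2 * (ph e 1 x - ph e 1 y)) +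
        (La e d0 d1 x - La e d0 d1 y) * q.2 := by
    unfold th
    ring
  rw [e1, ee_add]
  unfold kk
  by_cases hq : q.1 ∈ A
  · rw [indicator_of_mem hq, indicator_of_mem hq]
    push_cast
    ring
  · rw [indicator_of_notMem hq, indicator_of_notMem hq]
    simp

/-- the transplanted kernel -/
noncomputable def Hk (d0 d1 : ℝ) (A : Set (ℝ × ℝ)) (ε : ℝ) (η : E 3) : ℝ≥0∞ :=
  ‖Ah A (⟪e 0, η⟫, ⟪e 1, η⟫)‖ₑ *
    ENNReal.ofReal (k1 ε (d0 * ⟪e 0, η⟫ + d1 * ⟪e 1, η⟫ + ⟪e 2, η⟫))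

theorem Hk_meas (d0 d1 : ℝ) (A : Set (ℝ × ℝ)) (hA : MeasurableSet A) (ε : ℝ) :
    Measurable (Hk e d0 d1 A ε) := by
  unfold Hk
  have hi : ∀ i, Measurable fun η : E 3 => ⟪e i, η⟫ := fun i => by fun_prop
  refine Measurable.mul ((Ah_meas A hA).comp ((hi 0).prodMk (hi 1))).enorm ?_
  refine ((k1_cont ε).measurable.comp ?_).ennreal_ofReal
  exact (((hi 0).const_mul d0).add ((hi 1).const_mul d1)).add (hi 2)

theorem Hk_eq (d0 d1 : ℝ) (A : Set (ℝ × ℝ)) (ε : ℝ) (x y : E 2) :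
    ‖Ah A (ph e 0 x - ph e 0 y, ph e 1 x - ph e 1 y) *
        (k1 ε (La e d0 d1 x - La e d0 d1 y) : ℂ)‖ₑ = Hk e d0 d1 A ε (Phi x - Phi y) := by
  unfold Hk
  have hi : ∀ i, ⟪e i, Phi x - Phi y⟫ = ph e i x - ph e i y := fun i => by
    rw [inner_sub_right]
    rfl
  rw [hi, hi, hi, enorm_mul]
  congr 1
  rw [← ofReal_norm, Complex.norm_real, Real.norm_of_nonneg (k1_nonneg ε _)]
  congr 2
  unfold La
  ring

/-- the regularised estimate -/
theorem reg_est (d0 d1 : ℝ) (A : Set (ℝ × ℝ)) (hA : MeasurableSet A) (hAt : volume A ≠ ∞) (ε : ℝ)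
    (hε : 0 < ε) (M : ℝ) (f : E 2 → ℂ) (hf : Nice M f) :
    ∫⁻ q : (ℝ × ℝ) × ℝ, ENNReal.ofReal (kk A ε q) * ‖∫ x, ee (th e d0 d1 q x) * f x‖ₑ ^ 2 ≤
      ENNReal.ofReal M ^ 2 * ∫⁻ η, G5 η * Hk e d0 d1 A ε η := by
  refine (regG volume volume (kk A ε) (kk_nonneg A ε) (kk_meas A hA ε) (kk_int A hA hAt ε hε)
    (th e d0 d1) (th_meas e d0 d1) f hf.integrable).trans ?_
  have hfB : ∀ x, ‖f x‖ₑ ≤ ENNReal.ofReal M * B1 x := by
    intro x
    unfold B1
    by_cases hx : x ∈ Metric.ball (0 : E 2) 1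
    · rw [indicator_of_mem hx, Pi.one_apply, mul_one, ← ofReal_norm]
      exact ENNReal.ofReal_le_ofReal (hf.bd x)
    · rw [indicator_of_notMem hx, mul_zero, hf.supp x, enorm_zero]
      rw [Metric.mem_ball, dist_zero_right] at hx
      exact not_lt.1 hx
  have hHm := Hk_meas e d0 d1 A hA ε
  calc ∫⁻ x, ∫⁻ y, ‖f x‖ₑ * ‖f y‖ₑ *
        ‖∫ q : (ℝ × ℝ) × ℝ, (kk A ε q : ℂ) * ee (th e d0 d1 q x - th e d0 d1 q y)‖ₑ
      ≤ ∫⁻ x, ∫⁻ y, ENNReal.ofReal M ^ 2 * (B1 x * B1 y * Hk e d0 d1 A ε (Phi x - Phi y)) := by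
        refine lintegral_mono fun x => lintegral_mono fun y => ?_
        simp only
        rw [ker_eq e d0 d1 A ε hε, Hk_eq]
        calc ‖f x‖ₑ * ‖f y‖ₑ * Hk e d0 d1 A ε (Phi x - Phi y)
            ≤ (ENNReal.ofReal M * B1 x) * (ENNReal.ofReal M * B1 y) *
              Hk e d0 d1 A ε (Phi x - Phi y) := by
              gcongr
              · exact hfB x
              · exact hfB y
          _ = _ := by ring
    _ = ENNReal.ofReal M ^ 2 * ∫⁻ x : E 2, ∫⁻ y : E 2,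
          B1 x * B1 y * Hk e d0 d1 A ε (Phi x - Phi y) := by
        have hc : ENNReal.ofReal M ^ 2 ≠ ∞ := ENNReal.pow_ne_top ENNReal.ofReal_ne_top
        rw [← lintegral_const_mul' _ _ hc]
        refine lintegral_congr fun x => ?_
        rw [lintegral_const_mul' _ _ hc]
    _ ≤ _ := mul_le_mul_right (density _ hHm) _

theorem G5_le (z : Fin 3 → ℝ) :
    G5 (e.repr.symm (WithLp.toLp 2 z)) ≤ 4 * (ka (z 0) * ka (z 1)) := by
  set η : E 3 := e.repr.symm (WithLp.toLp 2 z) with hη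
  have hz : ∀ i, |z i| ≤ ‖η‖ := by
    intro i
    rw [← inner_repr_symm e i z]
    refine (abs_real_inner_le_norm _ _).trans ?_
    rw [e.orthonormal.1 i, one_mul]
  unfold G5
  by_cases h5 : η ∈ Metric.closedBall (0 : E 3) 5
  · rw [indicator_of_mem h5]
    rw [Metric.mem_closedBall, dist_zero_right] at h5
    rcases eq_or_lt_of_le (norm_nonneg η) with h0 | h0
    · rw [← h0, div_zero, ENNReal.ofReal_zero]
      exact zero_le
    · have hmem : ∀ i, z i ∈ Icc (-5 : ℝ) 5 := fun i => abs_le.1 ((hz i).trans h5)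
      unfold ka
      rw [indicator_of_mem (hmem 0), indicator_of_mem (hmem 1), div_eq_mul_inv,
        ENNReal.ofReal_mul (by norm_num), ENNReal.ofReal_inv_of_pos h0, ENNReal.ofReal_ofNat]
      refine mul_le_mul_right ?_ _
      have e1 : (ENNReal.ofReal ‖η‖)⁻¹ =
          (ENNReal.ofReal ‖η‖ ^ (1 / 2 : ℝ))⁻¹ * (ENNReal.ofReal ‖η‖ ^ (1 / 2 : ℝ))⁻¹ := by
        rw [← ENNReal.mul_inv (Or.inr (by simp)) (Or.inl (by simp)),
          ← ENNReal.rpow_add_of_nonneg _ _ (by norm_num) (by norm_num)]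
        norm_num
      rw [e1]
      refine mul_le_mul' ?_ ?_ <;>
      · rw [ENNReal.inv_le_inv]
        exact ENNReal.rpow_le_rpow (ENNReal.ofReal_le_ofReal (hz _)) (by norm_num)
  · rw [indicator_of_notMem h5]
    exact zero_le

/-- the integral of the transplanted kernel -/
theorem ker_int (d0 d1 : ℝ) (A : Set (ℝ × ℝ)) (hA : MeasurableSet A) (ε : ℝ) (hε : 0 < ε) :
    ∫⁻ η, G5 η * Hk e d0 d1 A ε η ≤ 4 * ∫⁻ p : ℝ × ℝ, (ka p.1 * ka p.2) * ‖Ah A p‖ₑ := by
  rw [cov e (fun η => G5 η * Hk e d0 d1 A ε η) (G5_meas.mul (Hk_meas e d0 d1 A hA ε))]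
  have hAm := Ah_meas A hA
  set F : (Fin 3 → ℝ) → ℝ≥0∞ := fun z => 4 * ((ka (z 0) * ka (z 1)) * ‖Ah A (z 0, z 1)‖ₑ) *
    ENNReal.ofReal (k1 ε ((d0 * z 0 + d1 * z 1) + z 2)) with hF
  have hmA : ∀ i : Fin 3, Measurable fun z : Fin 3 → ℝ => z i := fun i => measurable_pi_apply i
  have hFm : Measurable F := by
    rw [hF]
    refine Measurable.mul (Measurable.const_mul (Measurable.mul ?_ ?_) 4) ?_
    · exact (ka_meas.comp (hmA 0)).mul (ka_meas.comp (hmA 1))
    · exact (hAm.comp ((hmA 0).prodMk (hmA 1))).enorm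
    · exact ((k1_cont ε).measurable.comp
        ((((hmA 0).const_mul d0).add ((hmA 1).const_mul d1)).add (hmA 2))).ennreal_ofReal
  calc ∫⁻ z : Fin 3 → ℝ, (fun η => G5 η * Hk e d0 d1 A ε η) (e.repr.symm (WithLp.toLp 2 z))
      ≤ ∫⁻ z, F z := by
        refine lintegral_mono fun z => ?_
        simp only [hF, Hk]
        rw [inner_repr_symm, inner_repr_symm, inner_repr_symm]
        calc G5 (e.repr.symm (WithLp.toLp 2 z)) * (‖Ah A (z 0, z 1)‖ₑ *
              ENNReal.ofReal (k1 ε (d0 * z 0 + d1 * z 1 + z 2)))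
            ≤ (4 * (ka (z 0) * ka (z 1))) * (‖Ah A (z 0, z 1)‖ₑ *
              ENNReal.ofReal (k1 ε (d0 * z 0 + d1 * z 1 + z 2))) :=
              mul_le_mul_left (G5_le e z) _
          _ = _ := by ring
    _ = ∫⁻ a : ℝ, ∫⁻ t : Fin 2 → ℝ, F ((2 : Fin 3).insertNth a t) := split_lint (n := 2) 2 F hFm
    _ = ∫⁻ a : ℝ, ∫⁻ t : Fin 2 → ℝ, 4 * ((ka (t 0) * ka (t 1)) * ‖Ah A (t 0, t 1)‖ₑ) *
          ENNReal.ofReal (k1 ε ((d0 * t 0 + d1 * t 1) + a)) := by
        refine lintegral_congr fun a => lintegral_congr fun t => ?_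
        rfl
    _ = ∫⁻ t : Fin 2 → ℝ, ∫⁻ a : ℝ, 4 * ((ka (t 0) * ka (t 1)) * ‖Ah A (t 0, t 1)‖ₑ) *
          ENNReal.ofReal (k1 ε ((d0 * t 0 + d1 * t 1) + a)) := by
        refine lintegral_lintegral_swap (Measurable.aemeasurable ?_)
        have ht : ∀ i : Fin 2, Measurable fun p : ℝ × (Fin 2 → ℝ) => p.2 i := fun i =>
          (measurable_pi_apply i).comp measurable_snd
        refine Measurable.mul (Measurable.const_mul (Measurable.mul ?_ ?_) 4) ?_
        · exact (ka_meas.comp (ht 0)).mul (ka_meas.comp (ht 1))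
        · exact (hAm.comp ((ht 0).prodMk (ht 1))).enorm
        · exact ((k1_cont ε).measurable.comp
            ((((ht 0).const_mul d0).add ((ht 1).const_mul d1)).add measurable_fst)).ennreal_ofReal
    _ = ∫⁻ t : Fin 2 → ℝ, 4 * ((ka (t 0) * ka (t 1)) * ‖Ah A (t 0, t 1)‖ₑ) := by
        refine lintegral_congr fun t => ?_
        have hk : Measurable fun a : ℝ => ENNReal.ofReal (k1 ε ((d0 * t 0 + d1 * t 1) + a)) :=
          ((k1_cont ε).measurable.comp (measurable_const.add measurable_id)).ennreal_ofReal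
        rw [lintegral_const_mul _ hk]
        rw [lintegral_add_left_eq_self (fun a => ENNReal.ofReal (k1 ε a)), k1_int ε hε, mul_one]
    _ = ∫⁻ p : ℝ × ℝ, 4 * ((ka p.1 * ka p.2) * ‖Ah A p‖ₑ) :=
        (volume_preserving_finTwoArrow ℝ).lintegral_comp_emb
          (MeasurableEquiv.finTwoArrow (α := ℝ)).measurableEmbedding
          (fun p : ℝ × ℝ => 4 * ((ka p.1 * ka p.2) * ‖Ah A p‖ₑ))
    _ = _ := by
        rw [lintegral_const_mul]
        exact ((ka_meas.comp measurable_fst).mul (ka_meas.comp measurable_snd)).mul hAm.enorm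

end Pool.Agent.H972PL
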