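import Mathlib
import Pool.Agent.helper972_pl.C2
set_option autoImplicit false

/-! The cylinder estimate: the theorem. -/

namespace Pool.Agent.H972PL

open MeasureTheory Complex Set Filter Topology
open scoped ENNReal RealInnerProductSpace ComplexConjugate
open Pool.Agent.R412.RT (E ee ee_norm ee_add ee_conj ee_meas ee_cont planch Phi ph ph_cont Ey Ey_meas
  split_lint inner_eq cov inner_repr_symm)
open Pool.Agent.R412.RH (Nice)

/-- the sheared coordinates -/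
def sh (d0 d1 : ℝ) (q : (ℝ × ℝ) × ℝ) : Fin 3 → ℝ :=
  ![q.1.1 + d0 * q.2, q.1.2 + d1 * q.2, q.2]

theorem sh_meas (d0 d1 : ℝ) : Measurable (sh d0 d1) := by
  refine measurable_pi_iff.2 fun i => ?_
  fin_cases i
  · show Measurable fun q : (ℝ × ℝ) × ℝ => q.1.1 + d0 * q.2
    fun_prop
  · show Measurable fun q : (ℝ × ℝ) × ℝ => q.1.2 + d1 * q.2
    fun_prop
  · show Measurable fun q : (ℝ × ℝ) × ℝ => q.2
    fun_prop

theorem shear_lint (d0 d1 : ℝ) (F : (Fin 3 → ℝ) → ℝ≥0∞) (hF : Measurable F) :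
    ∫⁻ y, F y = ∫⁻ q : (ℝ × ℝ) × ℝ, F (sh d0 d1 q) := by
  have hFs : Measurable fun q : (ℝ × ℝ) × ℝ => F (sh d0 d1 q) := hF.comp (sh_meas d0 d1)
  rw [split_lint (n := 2) 2 F hF, Measure.volume_eq_prod, lintegral_prod_symm _ hFs.aemeasurable]
  refine lintegral_congr fun a => ?_
  rw [← lintegral_add_right_eq_self (fun t : Fin 2 → ℝ => F ((2 : Fin 3).insertNth a t))
    (![d0 * a, d1 * a])]
  have h1 : ∀ t : Fin 2 → ℝ, F ((2 : Fin 3).insertNth a (t + ![d0 * a, d1 * a])) =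
      F (sh d0 d1 ((t 0, t 1), a)) := by
    intro t
    congr 1
    funext i
    fin_cases i <;> rfl
  simp_rw [h1]
  exact (volume_preserving_finTwoArrow ℝ).lintegral_comp_emb
    (MeasurableEquiv.finTwoArrow (α := ℝ)).measurableEmbedding
    (fun p : ℝ × ℝ => F (sh d0 d1 (p, a)))

variable (e : OrthonormalBasis (Fin 3) ℝ (E 3))

theorem Ey_sh (d0 d1 : ℝ) (f : E 2 → ℂ) (q : (ℝ × ℝ) × ℝ) :
    Ey e f (sh d0 d1 q) = ∫ x, ee (th e d0 d1 q x) * f x := by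
  unfold Ey
  congr 1
  ext x
  congr 2
  rw [Fin.sum_univ_three]
  unfold th La sh
  simp only [Matrix.cons_val_zero, Matrix.cons_val_one, Matrix.cons_val]
  ring

/-- the planar coordinates of the point `y` in the oblique frame -/
def pc (d0 d1 : ℝ) (y : Fin 3 → ℝ) : ℝ × ℝ := (y 0 - d0 * y 2, y 1 - d1 * y 2)

theorem pc_meas (d0 d1 : ℝ) : Measurable (pc d0 d1) := by unfold pc; fun_prop

theorem pc_sh (d0 d1 : ℝ) (q : (ℝ × ℝ) × ℝ) : pc d0 d1 (sh d0 d1 q) = q.1 := by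
  unfold pc sh
  simp

/-- **the cylinder estimate** -/
theorem cyl (τ : ℝ) (h1 : 1 / 2 < τ) (h2 : τ < 1) : ∃ C : ℝ, 0 < C ∧
    ∀ (e : OrthonormalBasis (Fin 3) ℝ (E 3)) (d0 d1 M : ℝ) (f : E 2 → ℂ), 0 ≤ M → Nice M f →
    ∀ A : Set (ℝ × ℝ), MeasurableSet A → volume A ≠ ∞ →
    ∫⁻ y : Fin 3 → ℝ, A.indicator 1 (pc d0 d1 y) * ‖Ey e f y‖ₑ ^ 2 ≤
      ENNReal.ofReal (C * M ^ 2) * volume A ^ τ := by
  have hτ0 : 0 < τ := by linarith
  set K : ℝ≥0∞ := 4 * ((∫⁻ z, ka z ^ (1 / τ)) ^ 2) ^ τ with hK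
  have hKt : K ≠ ∞ := by
    refine ENNReal.mul_ne_top (by norm_num) (ENNReal.rpow_ne_top_of_nonneg hτ0.le
      (ENNReal.pow_ne_top (ka_int (1 / τ) (by positivity) ?_).ne))
    rw [div_lt_iff₀ hτ0]
    linarith
  refine ⟨K.toReal + 1, by positivity, fun e d0 d1 M f hM hf A hA hAt => ?_⟩
  set F : (ℝ × ℝ) × ℝ → ℂ := fun q => ∫ x, ee (th e d0 d1 q x) * f x with hF
  have hEm : Measurable (Ey e f) := Ey_meas e f hf.integrable.1
  have hFm : Measurable F := by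
    have : F = fun q => Ey e f (sh d0 d1 q) := by
      ext q
      rw [Ey_sh]
    rw [this]
    exact hEm.comp (sh_meas d0 d1)
  have hm : Measurable fun y : Fin 3 → ℝ => A.indicator (1 : ℝ × ℝ → ℝ≥0∞) (pc d0 d1 y) *
      ‖Ey e f y‖ₑ ^ 2 :=
    ((measurable_one.indicator hA).comp (pc_meas d0 d1)).mul (hEm.enorm.pow_const 2)
  rw [shear_lint d0 d1 _ hm]
  have e1 : ∀ q : (ℝ × ℝ) × ℝ, A.indicator (1 : ℝ × ℝ → ℝ≥0∞) (pc d0 d1 (sh d0 d1 q)) *
      ‖Ey e f (sh d0 d1 q)‖ₑ ^ 2 = A.indicator 1 q.1 * ‖F q‖ₑ ^ 2 := by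
    intro q
    rw [pc_sh, Ey_sh]
  simp_rw [e1]
  -- the limit
  have hlim : ∀ q : (ℝ × ℝ) × ℝ, Tendsto (fun k : ℕ =>
      ENNReal.ofReal (kk A (1 / ((k : ℝ) + 1)) q) * ‖F q‖ₑ ^ 2) atTop
      (𝓝 (A.indicator 1 q.1 * ‖F q‖ₑ ^ 2)) := by
    intro q
    have h1 : Tendsto (fun k : ℕ => Real.exp (-(1 / ((k : ℝ) + 1)) * q.2 ^ 2)) atTop (𝓝 1) := by
      have h2 : Tendsto (fun k : ℕ => -(1 / ((k : ℝ) + 1)) * q.2 ^ 2) atTop (𝓝 0) := by
        have := (tendsto_one_div_add_atTop_nhds_zero_nat (𝕜 := ℝ)).neg.mul_const (q.2 ^ 2)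
        simpa using this
      have := (Real.continuous_exp.tendsto 0).comp h2
      rwa [Real.exp_zero] at this
    have h3 : Tendsto (fun k : ℕ => ENNReal.ofReal (kk A (1 / ((k : ℝ) + 1)) q)) atTop
        (𝓝 (A.indicator 1 q.1)) := by
      simp_rw [kk_of]
      by_cases hq : q.1 ∈ A
      · rw [indicator_of_mem hq]
        simp only [Pi.one_apply, one_mul]
        have := ENNReal.tendsto_ofReal h1
        rwa [ENNReal.ofReal_one] at this
      · rw [indicator_of_notMem hq]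
        simp
    refine ENNReal.Tendsto.mul_const h3 (Or.inr ?_)
    have hb : ‖F q‖ₑ < ∞ := enorm_lt_top
    exact ENNReal.pow_ne_top hb.ne
  calc ∫⁻ q : (ℝ × ℝ) × ℝ, A.indicator 1 q.1 * ‖F q‖ₑ ^ 2
      = ∫⁻ q : (ℝ × ℝ) × ℝ, liminf (fun k : ℕ =>
          ENNReal.ofReal (kk A (1 / ((k : ℝ) + 1)) q) * ‖F q‖ₑ ^ 2) atTop := by
        refine lintegral_congr fun q => ?_
        rw [(hlim q).liminf_eq]
    _ ≤ liminf (fun k : ℕ => ∫⁻ q : (ℝ × ℝ) × ℝ,
          ENNReal.ofReal (kk A (1 / ((k : ℝ) + 1)) q) * ‖F q‖ₑ ^ 2) atTop := by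
        refine lintegral_liminf_le fun k => ?_
        exact (kk_meas A hA _).ennreal_ofReal.mul (hFm.enorm.pow_const 2)
    _ ≤ ENNReal.ofReal ((K.toReal + 1) * M ^ 2) * volume A ^ τ := by
        refine liminf_le_of_frequently_le' (Frequently.of_forall fun k => ?_)
        have hk : (0 : ℝ) < 1 / ((k : ℝ) + 1) := by positivity
        refine (reg_est e d0 d1 A hA hAt _ hk M f hf).trans ?_
        calc ENNReal.ofReal M ^ 2 * ∫⁻ η, G5 η * Hk e d0 d1 A (1 / ((k : ℝ) + 1)) η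
            ≤ ENNReal.ofReal M ^ 2 * (4 * (((∫⁻ z, ka z ^ (1 / τ)) ^ 2) ^ τ * volume A ^ τ)) := by
              refine mul_le_mul_right ((ker_int e d0 d1 A hA _ hk).trans ?_) _
              exact mul_le_mul_right (holder_step τ h1 h2 A hA hAt) _
          _ = ENNReal.ofReal M ^ 2 * K * volume A ^ τ := by rw [hK]; ring
          _ ≤ _ := by
              refine mul_le_mul_left ?_ _
              rw [ENNReal.ofReal_mul (by positivity), ENNReal.ofReal_pow hM, mul_comm]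
              refine mul_le_mul_left ?_ _
              rw [ENNReal.ofReal_add (by positivity) (by norm_num), ENNReal.ofReal_toReal hKt]
              exact le_self_add

end Pool.Agent.H972PL
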