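import Mathlib
import Pool.Agent.helper972_pl.C3
set_option autoImplicit false

/-! The slab estimate: tools. -/

namespace Pool.Agent.H972PL

open MeasureTheory Complex Set Filter Topology
open scoped ENNReal RealInnerProductSpace ComplexConjugate
open Pool.Agent.R412.RT (E ee ee_norm ee_add ee_conj ee_meas ee_cont Phi ph ph_cont Ex Ex_eq Ex_meas
  Ey Ey_meas split_lint inner_eq cov inner_repr_symm Jn Jn_eq Jn_cont Vs slab)
open Pool.Agent.R412.RH (Nice Gs Gs_meas Gs_int ker_le sq3 Ex_add3)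

/-- integration over the disc is dominated by integration over the square -/
theorem cube (G : ℝ × ℝ → ℝ≥0∞) (hG : Measurable G) :
    ∫⁻ x : E 2, B1 x * G (x 0, x 1) ≤
      ∫⁻ a in Ioo (-1 : ℝ) 1, ∫⁻ b in Ioo (-1 : ℝ) 1, G (a, b) := by
  have hx : ∀ i : Fin 2, Measurable fun x : E 2 => x i := fun i => by fun_prop
  have hm : Measurable fun x : E 2 => B1 x * G (x 0, x 1) :=
    B1_meas.mul (hG.comp ((hx 0).prodMk (hx 1)))
  rw [E2_split _ hm, ← lintegral_indicator measurableSet_Ioo]
  refine lintegral_mono fun a => ?_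
  by_cases ha : a ∈ Ioo (-1 : ℝ) 1
  · rw [indicator_of_mem ha, ← lintegral_indicator measurableSet_Ioo]
    refine lintegral_mono fun b => ?_
    show B1 !₂[a, b] * G (a, b) ≤ _
    by_cases hb : b ∈ Ioo (-1 : ℝ) 1
    · rw [indicator_of_mem hb]
      calc B1 !₂[a, b] * G (a, b) ≤ 1 * G (a, b) := mul_le_mul_left (B1_le _) _
        _ = _ := one_mul _
    · rw [indicator_of_notMem hb]
      have : B1 !₂[a, b] = 0 := by
        unfold B1
        rw [indicator_of_notMem]
        intro h
        rw [Metric.mem_ball, dist_zero_right] at h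
        have h1 : |b| ≤ ‖(!₂[a, b] : E 2)‖ := coord_le (!₂[a, b] : E 2) 1
        exact hb (abs_lt.1 (h1.trans_lt h))
      rw [this, zero_mul]
  · rw [indicator_of_notMem ha]
    refine le_of_eq (lintegral_eq_zero_of_ae_eq_zero (Eventually.of_forall fun b => ?_))
    show B1 !₂[a, b] * G (a, b) = 0
    have : B1 !₂[a, b] = 0 := by
      unfold B1
      rw [indicator_of_notMem]
      intro h
      rw [Metric.mem_ball, dist_zero_right] at h
      have h1 : |a| ≤ ‖(!₂[a, b] : E 2)‖ := coord_le (!₂[a, b] : E 2) 0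
      exact ha (abs_lt.1 (h1.trans_lt h))
    rw [this, zero_mul]

theorem B1_int : ∫⁻ x, B1 x ≤ 4 := by
  have h := cube (fun _ => 1) measurable_const
  simp only [mul_one] at h
  refine h.trans (le_of_eq ?_)
  simp only [lintegral_const, Measure.restrict_apply_univ, Real.volume_Ioo, one_mul]
  norm_num

variable (e : OrthonormalBasis (Fin 3) ℝ (E 3))

theorem Jn_two (x : E 2) : Jn e 2 x = e 2 (Fin.last 2) + (-(2 * e 2 0)) * x 0 +
    (-(2 * e 2 1)) * x 1 := by
  rw [Jn_eq, Fin.sum_univ_two]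
  have h0 : (e 2) (Fin.castSucc (0 : Fin 2)) = e 2 0 := rfl
  have h1 : (e 2) (Fin.castSucc (1 : Fin 2)) = e 2 1 := rfl
  rw [h0, h1]
  ring

theorem e_norm : (e 2 0) ^ 2 + (e 2 1) ^ 2 + (e 2 (Fin.last 2)) ^ 2 = 1 := by
  have h := e.orthonormal.1 2
  have h2 : ‖e 2‖ ^ 2 = 1 := by rw [h]; norm_num
  rw [EuclideanSpace.norm_sq_eq, Fin.sum_univ_castSucc, Fin.sum_univ_two] at h2
  simp only [Real.norm_eq_abs, sq_abs] at h2
  exact h2

/-- integration of functions of the normal component -/
theorem avgJ (G : ℝ → ℝ≥0∞) (hG : Measurable G) (S : ℝ≥0∞) (hS : ∀ w, 3 / 10 ≤ |w| → G w ≤ S) :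
    ∫⁻ x : E 2, B1 x * G (Jn e 2 x) ≤ 6 * (∫⁻ w, G w) + 4 * S := by
  have hn := e_norm e
  set a0 : ℝ := e 2 0 with ha0
  set a1 : ℝ := e 2 1 with ha1
  set c : ℝ := e 2 (Fin.last 2) with hc
  rcases le_or_gt (1 / 6) (max |a0| |a1|) with h | h
  · refine le_trans ?_ le_self_add
    have hmax : max |-(2 * a0)| |-(2 * a1)| = 2 * max |a0| |a1| := by
      rw [abs_neg, abs_neg, abs_mul, abs_mul, abs_two, mul_max_of_nonneg _ _ (by norm_num)]
    have h1 := cube (fun p => G (c + (-(2 * a0)) * p.1 + (-(2 * a1)) * p.2))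
      (hG.comp (by fun_prop))
    have h2 : ∀ x : E 2, B1 x * G (Jn e 2 x) =
        B1 x * (fun p : ℝ × ℝ => G (c + (-(2 * a0)) * p.1 + (-(2 * a1)) * p.2)) (x 0, x 1) := by
      intro x
      simp only
      rw [Jn_two]
    simp_rw [h2]
    refine h1.trans ((two_dir G hG c _ _ (by rw [hmax]; linarith)).trans ?_)
    refine mul_le_mul_left ?_ _
    rw [hmax]
    calc 2 * (ENNReal.ofReal (2 * max |a0| |a1|))⁻¹ ≤ 2 * (ENNReal.ofReal (1 / 3))⁻¹ := by
          refine mul_le_mul_right ?_ _
          rw [ENNReal.inv_le_inv]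
          exact ENNReal.ofReal_le_ofReal (by linarith)
      _ = 6 := by
          rw [← ENNReal.ofReal_inv_of_pos (by norm_num)]
          norm_num
  · refine le_trans ?_ le_add_self
    have b0 : |a0| < 1 / 6 := (le_max_left _ _).trans_lt h
    have b1 : |a1| < 1 / 6 := (le_max_right _ _).trans_lt h
    have c2 : 97 / 100 ≤ |c| := by
      by_contra hcc
      push Not at hcc
      have e0 : a0 ^ 2 < 1 / 36 := by rw [← sq_abs]; nlinarith [abs_nonneg a0]
      have e1 : a1 ^ 2 < 1 / 36 := by rw [← sq_abs]; nlinarith [abs_nonneg a1]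
      have e2 : c ^ 2 < (97 / 100) ^ 2 := by rw [← sq_abs]; nlinarith [abs_nonneg c]
      nlinarith
    calc ∫⁻ x : E 2, B1 x * G (Jn e 2 x) ≤ ∫⁻ x : E 2, B1 x * S := by
          refine lintegral_mono fun x => ?_
          by_cases hx : x ∈ Metric.ball (0 : E 2) 1
          · refine mul_le_mul_right (hS _ ?_) _
            rw [Metric.mem_ball, dist_zero_right] at hx
            have x0 : |x 0| ≤ 1 := (coord_le x 0).trans hx.le
            have x1 : |x 1| ≤ 1 := (coord_le x 1).trans hx.le
            rw [Jn_two]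
            have t0 : |2 * a0 * x 0| ≤ 1 / 3 := by
              rw [abs_mul, abs_mul, abs_two]
              nlinarith [abs_nonneg a0, abs_nonneg (x 0)]
            have t1 : |2 * a1 * x 1| ≤ 1 / 3 := by
              rw [abs_mul, abs_mul, abs_two]
              nlinarith [abs_nonneg a1, abs_nonneg (x 1)]
            have t2 : |c| ≤ |c + -(2 * a0) * x 0 + -(2 * a1) * x 1| + |2 * a0 * x 0| +
                |2 * a1 * x 1| := by
              have : c = (c + -(2 * a0) * x 0 + -(2 * a1) * x 1) + 2 * a0 * x 0 +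
                2 * a1 * x 1 := by ring
              calc |c| = |(c + -(2 * a0) * x 0 + -(2 * a1) * x 1) + 2 * a0 * x 0 +
                2 * a1 * x 1| := by rw [← this]
                _ ≤ _ := abs_add_three _ _ _
            linarith
          · have : B1 x = 0 := by unfold B1; rw [indicator_of_notMem hx]
            rw [this, zero_mul, zero_mul]
      _ = (∫⁻ x : E 2, B1 x) * S := lintegral_mul_const _ B1_meas
      _ ≤ _ := mul_le_mul_left B1_int _

/-- small normal component -/
theorem small_J (lam : ℝ) (hlam : 0 < lam) :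
    ∫⁻ x : E 2, B1 x * {w : ℝ | |w| ≤ lam}.indicator 1 (Jn e 2 x) ≤ ENNReal.ofReal (26 * lam) := by
  have hSm : MeasurableSet {w : ℝ | |w| ≤ lam} := measurableSet_le (by fun_prop) measurable_const
  refine (avgJ e ({w : ℝ | |w| ≤ lam}.indicator 1) (measurable_one.indicator hSm)
    (ENNReal.ofReal (10 / 3 * lam)) ?_).trans ?_
  · intro w hw
    by_cases h : w ∈ {w : ℝ | |w| ≤ lam}
    · rw [indicator_of_mem h, Pi.one_apply, ← ENNReal.ofReal_one]
      refine ENNReal.ofReal_le_ofReal ?_
      have h' : |w| ≤ lam := h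
      linarith
    · rw [indicator_of_notMem h]
      exact zero_le
  · rw [lintegral_indicator_one hSm]
    have hv : volume {w : ℝ | |w| ≤ lam} = ENNReal.ofReal (2 * lam) := by
      have : {w : ℝ | |w| ≤ lam} = Icc (-lam) lam := by
        ext w
        rw [mem_Icc, ← abs_le]
        rfl
      rw [this, Real.volume_Icc]
      congr 1
      ring
    rw [hv, ← ENNReal.ofReal_ofNat, ← ENNReal.ofReal_ofNat, ← ENNReal.ofReal_mul (by norm_num),
      ← ENNReal.ofReal_mul (by norm_num), ← ENNReal.ofReal_add (by positivity) (by positivity)]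
    refine ENNReal.ofReal_le_ofReal ?_
    linarith

/-- the singular integral -/
theorem sing_J (η : ℝ) (hη : 0 < η) (hη1 : η < 1) (σ : ℝ) (hσ : |σ| = 1) :
    ∫⁻ x : E 2, B1 x * (Gs η (σ * Jn e 2 x) + 1) ≤ ENNReal.ofReal (6 / η + 18) := by
  have hGm : Measurable fun w : ℝ => Gs η (σ * w) := (Gs_meas η).comp (by fun_prop)
  have hσ0 : σ ≠ 0 := by
    intro h
    rw [h, abs_zero] at hσ
    norm_num at hσ
  have h1 : ∫⁻ x : E 2, B1 x * (fun w => Gs η (σ * w)) (Jn e 2 x) ≤
      6 * ENNReal.ofReal (1 / η) + 4 * ENNReal.ofReal (10 / 3) := by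
    refine (avgJ e (fun w => Gs η (σ * w)) hGm (ENNReal.ofReal (10 / 3)) ?_).trans (le_of_eq ?_)
    · intro w hw
      unfold Gs
      by_cases h : σ * w ∈ Ioc (0 : ℝ) 1
      · rw [indicator_of_mem h]
        refine ENNReal.ofReal_le_ofReal ?_
        have e1 : σ * w = |w| := by
          rw [← abs_of_pos h.1, abs_mul, hσ, one_mul]
        rw [e1]
        have e2 : |w| ^ (η - 1) ≤ (3 / 10 : ℝ) ^ (η - 1) :=
          Real.rpow_le_rpow_of_nonpos (by norm_num) hw (by linarith)
        have e3 : (3 / 10 : ℝ) ^ (η - 1) ≤ (3 / 10 : ℝ) ^ (-1 : ℝ) :=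
          Real.rpow_le_rpow_of_exponent_ge (by norm_num) (by norm_num) (by linarith)
        refine e2.trans (e3.trans (le_of_eq ?_))
        rw [Real.rpow_neg_one]
        norm_num
      · rw [indicator_of_notMem h]
        exact zero_le
    · congr 2
      have h5 := affine_lint (Gs η) (Gs_meas η) 0 σ hσ0
      simp only [zero_add] at h5
      rw [h5, hσ, ENNReal.ofReal_one, inv_one, one_mul, Gs_int η hη]
  have h2 : ∀ x : E 2, B1 x * (Gs η (σ * Jn e 2 x) + 1) =
      B1 x * (fun w => Gs η (σ * w)) (Jn e 2 x) + B1 x := by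
    intro x
    simp only
    rw [mul_add, mul_one]
  simp_rw [h2]
  rw [lintegral_add_right _ B1_meas]
  calc _ ≤ (6 * ENNReal.ofReal (1 / η) + 4 * ENNReal.ofReal (10 / 3)) + 4 := add_le_add h1 B1_int
    _ ≤ _ := by
      rw [← ENNReal.ofReal_ofNat, ← ENNReal.ofReal_ofNat, ← ENNReal.ofReal_mul (by norm_num),
        ← ENNReal.ofReal_mul (by norm_num), ← ENNReal.ofReal_add (by positivity) (by positivity),
        ← ENNReal.ofReal_add (by positivity) (by positivity)]
      refine ENNReal.ofReal_le_ofReal ?_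
      have : 6 * (1 / η) = 6 / η := by ring
      rw [this]
      linarith

end Pool.Agent.H972PL
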