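import Mathlib
import Pool.Agent.helper972_pl.S1
set_option autoImplicit false

/-! The slab estimate. -/

namespace Pool.Agent.H972PL

open MeasureTheory Complex Set Filter Topology
open scoped ENNReal RealInnerProductSpace ComplexConjugate
open Pool.Agent.R412.RT (E ee ee_norm ee_add ee_conj ee_meas ee_cont Phi ph ph_cont Ex Ex_eq Ex_meas
  Ey Ey_meas split_lint inner_eq cov inner_repr_symm Jn Jn_eq Jn_cont Vs slab)
open Pool.Agent.R412.RH (Nice Gs Gs_meas Gs_int ker_le sq3 Ex_add3)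

variable (e : OrthonormalBasis (Fin 3) ℝ (E 3))

/-- the part where the normal component is large, with sign `σ` -/
noncomputable def gp (f : E 2 → ℂ) (lam σ : ℝ) (x : E 2) : ℂ :=
  {x | lam < σ * Jn e 2 x}.indicator f x

/-- the part where the normal component is small -/
noncomputable def gz (f : E 2 → ℂ) (lam : ℝ) (x : E 2) : ℂ :=
  {x | |Jn e 2 x| ≤ lam}.indicator f x

theorem gp_set (lam σ : ℝ) : MeasurableSet {x : E 2 | lam < σ * Jn e 2 x} :=
  measurableSet_lt measurable_const ((Jn_cont e 2).measurable.const_mul σ)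

theorem gz_set (lam : ℝ) : MeasurableSet {x : E 2 | |Jn e 2 x| ≤ lam} :=
  measurableSet_le (Jn_cont e 2).abs.measurable measurable_const

theorem gp_nice {M : ℝ} {f : E 2 → ℂ} (h : Nice M f) (lam σ : ℝ) : Nice M (gp e f lam σ) where
  meas := h.meas.indicator (gp_set e lam σ)
  bd x := (norm_indicator_le_norm_self _ _).trans (h.bd x)
  supp x hx := by
    unfold gp
    by_cases h1 : x ∈ {x | lam < σ * Jn e 2 x}
    · rw [indicator_of_mem h1]; exact h.supp x hx
    · rw [indicator_of_notMem h1]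

theorem gz_nice {M : ℝ} {f : E 2 → ℂ} (h : Nice M f) (lam : ℝ) : Nice M (gz e f lam) where
  meas := h.meas.indicator (gz_set e lam)
  bd x := (norm_indicator_le_norm_self _ _).trans (h.bd x)
  supp x hx := by
    unfold gz
    by_cases h1 : x ∈ {x | |Jn e 2 x| ≤ lam}
    · rw [indicator_of_mem h1]; exact h.supp x hx
    · rw [indicator_of_notMem h1]

theorem g_sum (f : E 2 → ℂ) (lam : ℝ) (hlam : 0 < lam) (x : E 2) :
    f x = gz e f lam x + gp e f lam 1 x + gp e f lam (-1) x := by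
  unfold gz gp
  set J := Jn e 2 x with hJ
  rcases le_or_gt |J| lam with h | h
  · have h1 : x ∈ {x | |Jn e 2 x| ≤ lam} := h
    have h2 : x ∉ {x | lam < 1 * Jn e 2 x} := fun h3 => by
      have h4 : lam < 1 * J := h3
      rw [one_mul] at h4
      linarith [le_abs_self J]
    have h3 : x ∉ {x | lam < -1 * Jn e 2 x} := fun h3 => by
      have h4 : lam < -1 * J := h3
      linarith [neg_le_abs J]
    rw [indicator_of_mem h1, indicator_of_notMem h2, indicator_of_notMem h3]
    ring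
  · have h1 : x ∉ {x | |Jn e 2 x| ≤ lam} := fun h3 => by
      have h4 : |J| ≤ lam := h3
      linarith
    rcases le_or_gt 0 J with h0 | h0
    · rw [abs_of_nonneg h0] at h
      have h2 : x ∈ {x | lam < 1 * Jn e 2 x} := by
        show lam < 1 * J
        linarith
      have h3 : x ∉ {x | lam < -1 * Jn e 2 x} := fun h3 => by
        have h4 : lam < -1 * J := h3
        linarith
      rw [indicator_of_notMem h1, indicator_of_mem h2, indicator_of_notMem h3]
      ring
    · rw [abs_of_neg h0] at h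
      have h2 : x ∉ {x | lam < 1 * Jn e 2 x} := fun h3 => by
        have h4 : lam < 1 * J := h3
        linarith
      have h3 : x ∈ {x | lam < -1 * Jn e 2 x} := by
        show lam < -1 * J
        linarith
      rw [indicator_of_notMem h1, indicator_of_notMem h2, indicator_of_mem h3]
      ring

/-- the indicator function of an oblique product set, in coordinates -/
noncomputable def WA (d0 d1 : ℝ) (A : Set (ℝ × ℝ)) (B : Set ℝ) (y : Fin 3 → ℝ) : ℝ≥0∞ :=
  A.indicator (1 : ℝ × ℝ → ℝ≥0∞) (pc d0 d1 y) * B.indicator (1 : ℝ → ℝ≥0∞) (y 2)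

theorem WA_meas (d0 d1 : ℝ) (A : Set (ℝ × ℝ)) (B : Set ℝ) (hA : MeasurableSet A)
    (hB : MeasurableSet B) : Measurable (WA d0 d1 A B) :=
  ((measurable_one.indicator hA).comp (pc_meas d0 d1)).mul
    ((measurable_one.indicator hB).comp (measurable_pi_apply 2))

theorem ind_le_one {α : Type*} (s : Set α) (a : α) : s.indicator (1 : α → ℝ≥0∞) a ≤ 1 := by
  by_cases h : a ∈ s
  · rw [indicator_of_mem h]; exact le_rfl
  · rw [indicator_of_notMem h]; exact zero_le_one

theorem WA_int (d0 d1 : ℝ) (A : Set (ℝ × ℝ)) (B : Set ℝ) (hA : MeasurableSet A)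
    (hB : MeasurableSet B) : ∫⁻ y, WA d0 d1 A B y = volume A * volume B := by
  rw [shear_lint d0 d1 _ (WA_meas d0 d1 A B hA hB)]
  have h1 : ∀ q : (ℝ × ℝ) × ℝ, WA d0 d1 A B (sh d0 d1 q) =
      A.indicator (1 : ℝ × ℝ → ℝ≥0∞) q.1 * B.indicator (1 : ℝ → ℝ≥0∞) q.2 := by
    intro q
    unfold WA
    rw [pc_sh]
    rfl
  simp_rw [h1]
  rw [Measure.volume_eq_prod, lintegral_prod_mul (measurable_one.indicator hA).aemeasurable
    (measurable_one.indicator hB).aemeasurable, lintegral_indicator_one hA,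
    lintegral_indicator_one hB]

theorem Ey_sup (g : E 2 → ℂ) (y : Fin 3 → ℝ) : ‖Ey e g y‖ₑ ≤ ∫⁻ x, ‖g x‖ₑ := by
  unfold Ey
  refine (enorm_integral_le_lintegral_enorm _).trans (le_of_eq ?_)
  refine lintegral_congr fun x => ?_
  rw [enorm_mul, ← ofReal_norm (ee _), ee_norm, ENNReal.ofReal_one, one_mul]

theorem triv_est (d0 d1 : ℝ) (g : E 2 → ℂ) (K : ℝ≥0∞) (hK : ∫⁻ x, ‖g x‖ₑ ≤ K) (A : Set (ℝ × ℝ))
    (B : Set ℝ) (hA : MeasurableSet A) (hB : MeasurableSet B) :
    ∫⁻ y, WA d0 d1 A B y * ‖Ey e g y‖ₑ ^ 2 ≤ K ^ 2 * (volume A * volume B) := by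
  calc ∫⁻ y, WA d0 d1 A B y * ‖Ey e g y‖ₑ ^ 2 ≤ ∫⁻ y, WA d0 d1 A B y * K ^ 2 := by
        refine lintegral_mono fun y => mul_le_mul_right ?_ _
        exact pow_le_pow_left' ((Ey_sup e g y).trans hK) 2
    _ = _ := by
        rw [lintegral_mul_const _ (WA_meas d0 d1 A B hA hB), WA_int d0 d1 A B hA hB, mul_comm]

theorem enorm_ind {M : ℝ} {f : E 2 → ℂ} (hf : Nice M f) (S : Set (E 2)) (x : E 2) :
    ‖S.indicator f x‖ₑ ≤ ENNReal.ofReal M * (B1 x * S.indicator (1 : E 2 → ℝ≥0∞) x) := by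
  by_cases hS : x ∈ S
  · rw [indicator_of_mem hS, indicator_of_mem hS, Pi.one_apply, mul_one]
    unfold B1
    by_cases hx : x ∈ Metric.ball (0 : E 2) 1
    · rw [indicator_of_mem hx, Pi.one_apply, mul_one, ← ofReal_norm]
      exact ENNReal.ofReal_le_ofReal (hf.bd x)
    · rw [indicator_of_notMem hx, mul_zero, hf.supp x, enorm_zero]
      rw [Metric.mem_ball, dist_zero_right] at hx
      exact not_lt.1 hx
  · rw [indicator_of_notMem hS, enorm_zero]
    exact zero_le

theorem f_int {M : ℝ} {f : E 2 → ℂ} (hf : Nice M f) :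
    ∫⁻ x, ‖f x‖ₑ ≤ ENNReal.ofReal M * 4 := by
  calc ∫⁻ x, ‖f x‖ₑ ≤ ∫⁻ x, ENNReal.ofReal M * B1 x := by
        refine lintegral_mono fun x => ?_
        have := enorm_ind hf univ x
        simpa using this
    _ ≤ _ := by
        rw [lintegral_const_mul _ B1_meas]
        exact mul_le_mul_right B1_int _

theorem gz_int {M : ℝ} {f : E 2 → ℂ} (hf : Nice M f) (lam : ℝ) (hlam : 0 < lam) :
    ∫⁻ x, ‖gz e f lam x‖ₑ ≤ ENNReal.ofReal M * ENNReal.ofReal (26 * lam) := by
  have hm : Measurable fun x : E 2 => B1 x * {w : ℝ | |w| ≤ lam}.indicator 1 (Jn e 2 x) := by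
    refine B1_meas.mul ((measurable_one.indicator ?_).comp (Jn_cont e 2).measurable)
    exact measurableSet_le (by fun_prop) measurable_const
  calc ∫⁻ x, ‖gz e f lam x‖ₑ
      ≤ ∫⁻ x, ENNReal.ofReal M * (B1 x * {w : ℝ | |w| ≤ lam}.indicator 1 (Jn e 2 x)) :=
        lintegral_mono fun x => enorm_ind hf {x | |Jn e 2 x| ≤ lam} x
    _ ≤ _ := by
        rw [lintegral_const_mul _ hm]
        exact mul_le_mul_right (small_J e lam hlam) _

theorem gp_sq {M : ℝ} {f : E 2 → ℂ} (hM : 0 ≤ M) (hf : Nice M f) (η : ℝ) (hη : 0 < η)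
    (hη1 : η < 1) (lam : ℝ) (hlam : 0 < lam) (σ : ℝ) (hσ : |σ| = 1) :
    ∫⁻ x, ‖gp e f lam σ x‖ₑ ^ 2 / ENNReal.ofReal |Jn e 2 x| ≤
      ENNReal.ofReal (M ^ 2 * lam ^ (-η) * (6 / η + 18)) := by
  have hm : Measurable fun x : E 2 => B1 x * (Gs η (σ * Jn e 2 x) + 1) := by
    refine B1_meas.mul (Measurable.add ((Gs_meas η).comp ?_) measurable_const)
    exact (Jn_cont e 2).measurable.const_mul σ
  calc ∫⁻ x, ‖gp e f lam σ x‖ₑ ^ 2 / ENNReal.ofReal |Jn e 2 x|
      ≤ ∫⁻ x, ENNReal.ofReal (M ^ 2 * lam ^ (-η)) * (B1 x * (Gs η (σ * Jn e 2 x) + 1)) := by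
        refine lintegral_mono fun x => ?_
        by_cases hx : x ∈ {x | lam < σ * Jn e 2 x}
        · have hx' : lam < σ * Jn e 2 x := hx
          have hJ : |Jn e 2 x| = σ * Jn e 2 x := by
            rw [← abs_of_pos (hlam.trans hx'), abs_mul, hσ, one_mul]
          have h1 := enorm_ind hf {x | lam < σ * Jn e 2 x} x
          rw [indicator_of_mem hx (1 : E 2 → ℝ≥0∞), Pi.one_apply, mul_one] at h1
          rw [div_eq_mul_one_div, hJ]
          calc ‖gp e f lam σ x‖ₑ ^ 2 * (1 / ENNReal.ofReal (σ * Jn e 2 x))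
              ≤ (ENNReal.ofReal M * B1 x) ^ 2 *
                (ENNReal.ofReal (lam ^ (-η)) * (Gs η (σ * Jn e 2 x) + 1)) :=
                mul_le_mul' (pow_le_pow_left' h1 2) (ker_le η lam _ hη hη1 hlam hx')
            _ = ENNReal.ofReal (M ^ 2 * lam ^ (-η)) * (B1 x ^ 2 * (Gs η (σ * Jn e 2 x) + 1)) := by
                rw [ENNReal.ofReal_mul (by positivity), ENNReal.ofReal_pow hM]
                ring
            _ ≤ _ := by
                refine mul_le_mul_right (mul_le_mul_left ?_ _) _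
                rw [sq]
                calc B1 x * B1 x ≤ B1 x * 1 := mul_le_mul_right (B1_le x) _
                  _ = _ := mul_one _
        · have : gp e f lam σ x = 0 := by
            unfold gp
            rw [indicator_of_notMem hx]
          rw [this, enorm_zero]
          simp
    _ ≤ _ := by
        rw [lintegral_const_mul _ hm, ENNReal.ofReal_mul (p := M ^ 2 * lam ^ (-η)) (by positivity)]
        exact mul_le_mul_right (sing_J e η hη hη1 σ hσ) _

/-- **the slab estimate** -/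
theorem slabT (η : ℝ) (hη : 0 < η) (hη1 : η < 1) : ∃ C : ℝ, 0 < C ∧
    ∀ (e : OrthonormalBasis (Fin 3) ℝ (E 3)) (d0 d1 M : ℝ) (f : E 2 → ℂ), 0 ≤ M → Nice M f →
    ∀ (A : Set (ℝ × ℝ)) (B : Set ℝ), MeasurableSet A → MeasurableSet B → volume A ≠ ∞ →
    ∫⁻ y : Fin 3 → ℝ, WA d0 d1 A B y * ‖Ey e f y‖ₑ ^ 2 ≤
      ENNReal.ofReal (C * M ^ 2) * (volume A ^ (η / 2) * volume B) := by
  have hCpos : 0 < 3 * (676 + 2 * (6 / η + 18)) := by positivity
  refine ⟨3 * (676 + 2 * (6 / η + 18)), hCpos, fun e d0 d1 M f hM hf A B hA hB hAt => ?_⟩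
  rcases le_or_gt (volume A) 1 with hA1 | hA1
  · refine (triv_est e d0 d1 f _ (f_int hf) A B hA hB).trans ?_
    have e1 : volume A ≤ volume A ^ (η / 2) := by
      calc volume A = volume A ^ (1 : ℝ) := (ENNReal.rpow_one _).symm
        _ ≤ volume A ^ (η / 2) := ENNReal.rpow_le_rpow_of_exponent_ge hA1 (by linarith)
    have e2 : (ENNReal.ofReal M * 4) ^ 2 ≤
        ENNReal.ofReal (3 * (676 + 2 * (6 / η + 18)) * M ^ 2) := by
      rw [ENNReal.ofReal_mul hCpos.le, ENNReal.ofReal_pow hM, mul_pow, mul_comm]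
      refine mul_le_mul_left ?_ _
      rw [← ENNReal.ofReal_ofNat, ← ENNReal.ofReal_pow (by norm_num)]
      refine ENNReal.ofReal_le_ofReal ?_
      have : 0 < 6 / η := by positivity
      norm_num
      linarith
    exact mul_le_mul' e2 (mul_le_mul_left e1 _)
  · obtain ⟨α, hα1, hα⟩ : ∃ α : ℝ, 1 < α ∧ volume A = ENNReal.ofReal α := by
      refine ⟨(volume A).toReal, ?_, (ENNReal.ofReal_toReal hAt).symm⟩
      rw [← ENNReal.toReal_one]
      exact (ENNReal.toReal_lt_toReal (by simp) hAt).2 hA1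
    have hα0 : 0 < α := by linarith
    set lam : ℝ := α ^ (-(1 / 2) : ℝ) with hlam
    have hlam0 : 0 < lam := by positivity
    have hn0 := gz_nice e hf lam
    have hnp := gp_nice e hf lam 1
    have hnm := gp_nice e hf lam (-1)
    have hsum : ∀ y, ‖Ey e f y‖ₑ ^ 2 ≤ 3 * (‖Ey e (gz e f lam) y‖ₑ ^ 2 +
        ‖Ey e (gp e f lam 1) y‖ₑ ^ 2 + ‖Ey e (gp e f lam (-1)) y‖ₑ ^ 2) := by
      intro y
      rw [← Ex_eq, ← Ex_eq, ← Ex_eq, ← Ex_eq,
        Ex_add3 f _ _ _ hn0.integrable hnp.integrable hnm.integrable (g_sum e f lam hlam0)]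
      refine (pow_le_pow_left' ((enorm_add_le _ _).trans (add_le_add_left (enorm_add_le _ _) _))
        2).trans (sq3 _ _ _)
    have hWm := WA_meas d0 d1 A B hA hB
    have hm : ∀ g : E 2 → ℂ, Integrable g → Measurable fun y => WA d0 d1 A B y * ‖Ey e g y‖ₑ ^ 2 :=
      fun g hg => hWm.mul ((Ey_meas e g hg.1).enorm.pow_const 2)
    have hI : ∫⁻ y, WA d0 d1 A B y * ‖Ey e (gz e f lam) y‖ₑ ^ 2 ≤
        ENNReal.ofReal (M ^ 2 * 676) * volume B := by
      refine (triv_est e d0 d1 _ _ (gz_int e hf lam hlam0) A B hA hB).trans (le_of_eq ?_)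
      rw [← ENNReal.ofReal_mul hM, ← ENNReal.ofReal_pow (by positivity), ← mul_assoc, hα,
        ← ENNReal.ofReal_mul (by positivity)]
      congr 2
      have h1 : lam ^ 2 * α = 1 := by
        rw [hlam, ← Real.rpow_natCast, ← Real.rpow_mul hα0.le]
        have : (-(1 / 2) : ℝ) * ((2 : ℕ) : ℝ) = -1 := by norm_num
        rw [this, Real.rpow_neg_one, inv_mul_cancel₀ hα0.ne']
      calc (M * (26 * lam)) ^ 2 * α = M ^ 2 * 676 * (lam ^ 2 * α) := by ring
        _ = _ := by rw [h1, mul_one]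
    have hII : ∀ σ : ℝ, |σ| = 1 → ∫⁻ y, WA d0 d1 A B y * ‖Ey e (gp e f lam σ) y‖ₑ ^ 2 ≤
        ENNReal.ofReal (M ^ 2 * α ^ (η / 2) * (6 / η + 18)) * volume B := by
      intro σ hσ
      have hng := gp_nice e hf lam σ
      have h1 := slab e 2 σ (B.indicator 1) (measurable_one.indicator hB) (gp e f lam σ)
        hng.integrable (fun x hx => by
          unfold gp
          rw [indicator_of_notMem]
          intro h
          have h' : lam < σ * Jn e 2 x := h
          exact hx (hlam0.trans h'))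
      rw [lintegral_indicator_one hB] at h1
      calc ∫⁻ y, WA d0 d1 A B y * ‖Ey e (gp e f lam σ) y‖ₑ ^ 2
          ≤ ∫⁻ y : Fin 3 → ℝ, B.indicator 1 (y 2) * ‖Ey e (gp e f lam σ) y‖ₑ ^ 2 := by
            refine lintegral_mono fun y => mul_le_mul_left ?_ _
            unfold WA
            calc _ ≤ 1 * B.indicator (1 : ℝ → ℝ≥0∞) (y 2) := mul_le_mul_left (ind_le_one _ _) _
              _ = _ := one_mul _
        _ ≤ _ := h1
        _ ≤ volume B * ENNReal.ofReal (M ^ 2 * lam ^ (-η) * (6 / η + 18)) :=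
            mul_le_mul_right (gp_sq e hM hf η hη hη1 lam hlam0 σ hσ) _
        _ = _ := by
            rw [mul_comm]
            congr 4
            rw [hlam, ← Real.rpow_mul hα0.le]
            congr 1
            ring
    have hη2 : 1 ≤ α ^ (η / 2) := Real.one_le_rpow hα1.le (by positivity)
    calc ∫⁻ y, WA d0 d1 A B y * ‖Ey e f y‖ₑ ^ 2
        ≤ ∫⁻ y, 3 * (WA d0 d1 A B y * ‖Ey e (gz e f lam) y‖ₑ ^ 2 +
          WA d0 d1 A B y * ‖Ey e (gp e f lam 1) y‖ₑ ^ 2 +
          WA d0 d1 A B y * ‖Ey e (gp e f lam (-1)) y‖ₑ ^ 2) := by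
          refine lintegral_mono fun y => ?_
          calc WA d0 d1 A B y * ‖Ey e f y‖ₑ ^ 2 ≤ WA d0 d1 A B y * (3 * (‖Ey e (gz e f lam) y‖ₑ ^ 2 +
              ‖Ey e (gp e f lam 1) y‖ₑ ^ 2 + ‖Ey e (gp e f lam (-1)) y‖ₑ ^ 2)) :=
                mul_le_mul_right (hsum y) _
            _ = _ := by ring
      _ = 3 * ((∫⁻ y, WA d0 d1 A B y * ‖Ey e (gz e f lam) y‖ₑ ^ 2) +
          (∫⁻ y, WA d0 d1 A B y * ‖Ey e (gp e f lam 1) y‖ₑ ^ 2) +
          ∫⁻ y, WA d0 d1 A B y * ‖Ey e (gp e f lam (-1)) y‖ₑ ^ 2) := by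
          have m0 := hm _ hn0.integrable
          have m1 := hm _ hnp.integrable
          have m2 := hm _ hnm.integrable
          have m01 : Measurable fun y => WA d0 d1 A B y * ‖Ey e (gz e f lam) y‖ₑ ^ 2 +
              WA d0 d1 A B y * ‖Ey e (gp e f lam 1) y‖ₑ ^ 2 := m0.add m1
          have m012 : Measurable fun y => WA d0 d1 A B y * ‖Ey e (gz e f lam) y‖ₑ ^ 2 +
              WA d0 d1 A B y * ‖Ey e (gp e f lam 1) y‖ₑ ^ 2 +
              WA d0 d1 A B y * ‖Ey e (gp e f lam (-1)) y‖ₑ ^ 2 := m01.add m2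
          rw [lintegral_const_mul _ m012, lintegral_add_left m01, lintegral_add_left m0]
      _ ≤ 3 * (ENNReal.ofReal (M ^ 2 * 676) * volume B +
          ENNReal.ofReal (M ^ 2 * α ^ (η / 2) * (6 / η + 18)) * volume B +
          ENNReal.ofReal (M ^ 2 * α ^ (η / 2) * (6 / η + 18)) * volume B) :=
          mul_le_mul_right (add_le_add (add_le_add hI (hII 1 (by norm_num)))
            (hII (-1) (by norm_num))) _
      _ = ENNReal.ofReal (3 * (M ^ 2 * 676 + M ^ 2 * α ^ (η / 2) * (6 / η + 18) +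
          M ^ 2 * α ^ (η / 2) * (6 / η + 18))) * volume B := by
          have q1 : 0 ≤ M ^ 2 * 676 := by positivity
          have q2 : 0 ≤ M ^ 2 * α ^ (η / 2) * (6 / η + 18) := by positivity
          rw [ENNReal.ofReal_mul (by norm_num) (p := 3), ENNReal.ofReal_add (add_nonneg q1 q2) q2,
            ENNReal.ofReal_add q1 q2, ENNReal.ofReal_ofNat]
          ring
      _ ≤ _ := by
          rw [← mul_assoc]
          refine mul_le_mul_left ?_ _
          rw [hα, ENNReal.ofReal_rpow_of_pos hα0, ← ENNReal.ofReal_mul (by positivity)]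
          refine ENNReal.ofReal_le_ofReal ?_
          have q1 : M ^ 2 * 676 ≤ M ^ 2 * 676 * α ^ (η / 2) :=
            le_mul_of_one_le_right (by positivity) hη2
          nlinarith

end Pool.Agent.H972PL
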