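import Mathlib
import Pool.Agent.helper972_pl.S2
set_option autoImplicit false

/-! Oblique products of a planar and a linear set: interpolation of the two estimates. -/

namespace Pool.Agent.H972PL

open MeasureTheory Complex Set Filter Topology
open scoped ENNReal RealInnerProductSpace ComplexConjugate
open Pool.Agent.R412.RT (E Ey)
open Pool.Agent.R412.RH (Nice)

theorem interp (I X Y : ℝ≥0∞) (β : ℝ) (hβ : 0 < β) (hβ1 : β < 1) (hX : I ≤ X) (hY : I ≤ Y) :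
    I ≤ X ^ (1 - β) * Y ^ β := by
  calc I = I ^ (1 - β) * I ^ β := by
        rw [← ENNReal.rpow_add_of_nonneg _ _ (by linarith) hβ.le]
        have : 1 - β + β = 1 := by ring
        rw [this, ENNReal.rpow_one]
    _ ≤ X ^ (1 - β) * Y ^ β :=
        mul_le_mul' (ENNReal.rpow_le_rpow hX (by linarith)) (ENNReal.rpow_le_rpow hY hβ.le)

theorem comb (K a b : ℝ≥0∞) (τ ε β : ℝ) (hτ : 0 ≤ τ) (hε : 0 ≤ ε) (hβ : 0 < β) (hβ1 : β < 1) :
    (K * a ^ τ) ^ (1 - β) * (K * (a ^ ε * b)) ^ β =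
      K * (a ^ (τ * (1 - β) + ε * β) * b ^ β) := by
  have h1 : 0 ≤ 1 - β := by linarith
  rw [ENNReal.mul_rpow_of_nonneg _ _ h1, ENNReal.mul_rpow_of_nonneg _ _ hβ.le,
    ENNReal.mul_rpow_of_nonneg _ _ hβ.le, ← ENNReal.rpow_mul, ← ENNReal.rpow_mul,
    ENNReal.rpow_add_of_nonneg _ _ (by positivity) (by positivity)]
  calc K ^ (1 - β) * a ^ (τ * (1 - β)) * (K ^ β * (a ^ (ε * β) * b ^ β))
      = (K ^ (1 - β) * K ^ β) * (a ^ (τ * (1 - β)) * a ^ (ε * β) * b ^ β) := by ring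
    _ = _ := by
        rw [← ENNReal.rpow_add_of_nonneg _ _ h1 hβ.le]
        have : 1 - β + β = 1 := by ring
        rw [this, ENNReal.rpow_one]

/-- **oblique product sets** -/
theorem sets (α β : ℝ) (hβ : 0 < β) (hβ1 : β < 1) (hα : (1 - β) / 2 < α) (hα1 : α < 1) :
    ∃ C : ℝ, 0 < C ∧
    ∀ (e : OrthonormalBasis (Fin 3) ℝ (E 3)) (d0 d1 M : ℝ) (f : E 2 → ℂ), 0 ≤ M → Nice M f →
    ∀ (A : Set (ℝ × ℝ)) (B : Set ℝ), MeasurableSet A → MeasurableSet B → volume A ≠ ∞ →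
    ∫⁻ y : Fin 3 → ℝ, WA d0 d1 A B y * ‖Ey e f y‖ₑ ^ 2 ≤
      ENNReal.ofReal (C * M ^ 2) * (volume A ^ α * volume B ^ β) := by
  have hα0 : 0 < α := by linarith
  set δ : ℝ := α - (1 - β) / 2 with hδ
  have hδ0 : 0 < δ := by linarith
  set κ : ℝ := min (δ / 4) (1 / 4) with hκ
  have hκ0 : 0 < κ := lt_min (by positivity) (by norm_num)
  have hκ1 : κ ≤ 1 / 4 := min_le_right _ _
  have hκδ : κ ≤ δ / 4 := min_le_left _ _
  set τ1 : ℝ := max (3 / 4) α with hτ1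
  have hτ1a : 3 / 4 ≤ τ1 := le_max_left _ _
  have hτ1b : α ≤ τ1 := le_max_right _ _
  have hτ1c : τ1 < 1 := max_lt (by norm_num) hα1
  set τ2 : ℝ := 1 / 2 + κ with hτ2
  obtain ⟨C1, hC1, hcyl1⟩ := cyl τ1 (by linarith) hτ1c
  obtain ⟨C2, hC2, hcyl2⟩ := cyl τ2 (by linarith) (by linarith)
  obtain ⟨C3, hC3, hsl⟩ := slabT (2 * κ) (by linarith) (by linarith)
  refine ⟨C1 + C2 + C3 + 16, by positivity, fun e d0 d1 M f hM hf A B hA hB hAt => ?_⟩
  set K : ℝ≥0∞ := ENNReal.ofReal ((C1 + C2 + C3 + 16) * M ^ 2) with hK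
  have hKm : ∀ c : ℝ, c ≤ C1 + C2 + C3 + 16 → ENNReal.ofReal (c * M ^ 2) ≤ K := fun c hc =>
    ENNReal.ofReal_le_ofReal (mul_le_mul_of_nonneg_right hc (by positivity))
  set I : ℝ≥0∞ := ∫⁻ y : Fin 3 → ℝ, WA d0 d1 A B y * ‖Ey e f y‖ₑ ^ 2 with hI
  have hcylI : I ≤ ∫⁻ y : Fin 3 → ℝ, A.indicator 1 (pc d0 d1 y) * ‖Ey e f y‖ₑ ^ 2 := by
    refine lintegral_mono fun y => mul_le_mul_left ?_ _
    unfold WA
    calc _ ≤ A.indicator (1 : ℝ × ℝ → ℝ≥0∞) (pc d0 d1 y) * 1 :=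
          mul_le_mul_right (ind_le_one _ _) _
      _ = _ := mul_one _
  rcases le_or_gt (volume A) 1 with hA1 | hA1
  · have hX : I ≤ K * volume A ^ τ1 :=
      hcylI.trans ((hcyl1 e d0 d1 M f hM hf A hA hAt).trans
        (mul_le_mul_left (hKm C1 (by linarith)) _))
    have hY : I ≤ K * (volume A ^ (1 : ℝ) * volume B) := by
      refine (triv_est e d0 d1 f _ (f_int hf) A B hA hB).trans ?_
      rw [ENNReal.rpow_one]
      refine mul_le_mul_left ?_ _
      refine le_trans (le_of_eq ?_) (hKm 16 (by linarith))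
      rw [mul_pow, ← ENNReal.ofReal_pow hM, ENNReal.ofReal_mul (by norm_num), mul_comm]
      norm_num
    have h := interp I _ _ β hβ hβ1 hX hY
    rw [comb _ _ _ _ _ _ (by linarith) zero_le_one hβ hβ1] at h
    refine h.trans (mul_le_mul_right (mul_le_mul_left ?_ _) _)
    refine ENNReal.rpow_le_rpow_of_exponent_ge hA1 ?_
    nlinarith
  · have hX : I ≤ K * volume A ^ τ2 :=
      hcylI.trans ((hcyl2 e d0 d1 M f hM hf A hA hAt).trans
        (mul_le_mul_left (hKm C2 (by linarith)) _))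
    have hY : I ≤ K * (volume A ^ κ * volume B) := by
      refine (hsl e d0 d1 M f hM hf A B hA hB hAt).trans ?_
      have e1 : 2 * κ / 2 = κ := by ring
      rw [e1]
      exact mul_le_mul_left (hKm C3 (by linarith)) _
    have h := interp I _ _ β hβ hβ1 hX hY
    rw [comb _ _ _ _ _ _ (by linarith) hκ0.le hβ hβ1] at h
    refine h.trans (mul_le_mul_right (mul_le_mul_left ?_ _) _)
    refine ENNReal.rpow_le_rpow_of_exponent_le hA1.le ?_
    nlinarith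

end Pool.Agent.H972PL
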