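import Mathlib
import Pool.Agent.helper972_pl.I1
set_option autoImplicit false

/-! Oblique products of a planar and a linear weight. -/

namespace Pool.Agent.H972PL

open MeasureTheory Complex Set Filter Topology
open scoped ENNReal RealInnerProductSpace ComplexConjugate
open Pool.Agent.R412.RT (E Ey Ey_meas)
open Pool.Agent.R412.RH (Nice layer2)

/-- sets of infinite measure included -/
theorem sets' (α β : ℝ) (hβ : 0 < β) (hβ1 : β < 1) (hα : (1 - β) / 2 < α) (hα1 : α < 1) :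
    ∃ C : ℝ, 0 < C ∧
    ∀ (e : OrthonormalBasis (Fin 3) ℝ (E 3)) (d0 d1 M : ℝ) (f : E 2 → ℂ), 0 ≤ M → Nice M f →
    ∀ (A : Set (ℝ × ℝ)) (B : Set ℝ), MeasurableSet A → MeasurableSet B →
    ∫⁻ y : Fin 3 → ℝ, WA d0 d1 A B y * ‖Ey e f y‖ₑ ^ 2 ≤
      ENNReal.ofReal (C * M ^ 2) * (volume A ^ α * volume B ^ β) := by
  have hα0 : 0 < α := by linarith
  obtain ⟨C, hC, h⟩ := sets α β hβ hβ1 hα hα1
  refine ⟨C, hC, fun e d0 d1 M f hM hf A B hA hB => ?_⟩
  by_cases hAt : volume A = ∞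
  · by_cases hBz : volume B = 0
    · have h1 := WA_int d0 d1 A B hA hB
      rw [hBz, mul_zero, lintegral_eq_zero_iff (WA_meas d0 d1 A B hA hB)] at h1
      have h2 : ∫⁻ y : Fin 3 → ℝ, WA d0 d1 A B y * ‖Ey e f y‖ₑ ^ 2 = 0 := by
        refine lintegral_eq_zero_of_ae_eq_zero ?_
        filter_upwards [h1] with y hy
        rw [hy]
        simp
      rw [h2]
      exact zero_le
    · rcases eq_or_lt_of_le hM with hM0 | hM0
      · have h3 : ∀ y, ‖Ey e f y‖ₑ ^ 2 = 0 := by
          intro y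
          have h4 := (Ey_sup e f y).trans (f_int hf)
          rw [← hM0, ENNReal.ofReal_zero, zero_mul] at h4
          rw [le_antisymm h4 zero_le]
          norm_num
        simp_rw [h3, mul_zero]
        rw [lintegral_zero]
        exact zero_le
      · rw [hAt, ENNReal.top_rpow_of_pos hα0, ENNReal.top_mul, ENNReal.mul_top]
        · exact le_top
        · have : 0 < C * M ^ 2 := by positivity
          simpa using this
        · intro h0
          rw [ENNReal.rpow_eq_zero_iff] at h0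
          rcases h0 with h0 | h0
          · exact hBz h0.1
          · linarith [h0.2]
  · exact h e d0 d1 M f hM hf A B hA hB hAt

/-- the majorant of the distribution function -/
noncomputable def psi (κ ν s : ℝ) : ℝ :=
  if s ≤ ν then ν ^ (1 - κ) * s ^ (κ - 1) else ν ^ (1 + κ) * s ^ (-1 - κ)

/-- the exponent used at the height `s` -/
noncomputable def ex (α κ ν s : ℝ) : ℝ := if s ≤ ν then α * (1 - κ) else α * (1 + κ)

theorem corner (α κ ν s : ℝ) (hα : 0 < α) (hκ : 0 < κ) (hκ1 : κ < 1) (hν : 0 < ν) (hs : 0 < s)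
    (a : ℝ≥0∞) (h : ENNReal.ofReal s * a ^ α ≤ ENNReal.ofReal ν) :
    a ^ ex α κ ν s ≤ ENNReal.ofReal (psi κ ν s) := by
  have h1 : a ^ α ≤ ENNReal.ofReal (ν / s) := by
    rw [ENNReal.ofReal_div_of_pos hs, ENNReal.le_div_iff_mul_le]
    · rw [mul_comm]; exact h
    · left; simpa using hs
    · left; exact ENNReal.ofReal_ne_top
  have h2 : ∀ c : ℝ, 0 ≤ c → a ^ (α * c) ≤ ENNReal.ofReal ((ν / s) ^ c) := by
    intro c hc
    rw [ENNReal.rpow_mul]
    refine (ENNReal.rpow_le_rpow h1 hc).trans (le_of_eq ?_)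
    rw [ENNReal.ofReal_rpow_of_pos (by positivity)]
  unfold ex psi
  by_cases hsν : s ≤ ν
  · rw [if_pos hsν, if_pos hsν]
    refine (h2 (1 - κ) (by linarith)).trans (le_of_eq ?_)
    congr 1
    rw [Real.div_rpow hν.le hs.le, div_eq_mul_inv, ← Real.rpow_neg hs.le]
    congr 2
    ring
  · rw [if_neg hsν, if_neg hsν]
    refine (h2 (1 + κ) (by linarith)).trans (le_of_eq ?_)
    congr 1
    rw [Real.div_rpow hν.le hs.le, div_eq_mul_inv, ← Real.rpow_neg hs.le]
    congr 2
    ring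

theorem psi_int (κ ν : ℝ) (hκ : 0 < κ) (hν : 0 < ν) :
    ∫⁻ s in Ioi (0 : ℝ), ENNReal.ofReal (psi κ ν s) ≤ ENNReal.ofReal (2 / κ) * ENNReal.ofReal ν := by
  have hun : Ioi (0 : ℝ) = Ioc 0 ν ∪ Ioi ν := (Ioc_union_Ioi_eq_Ioi hν.le).symm
  have h1 : ∫⁻ s in Ioc (0 : ℝ) ν, ENNReal.ofReal (psi κ ν s) = ENNReal.ofReal (ν / κ) := by
    have e1 : ∫⁻ s in Ioc (0 : ℝ) ν, ENNReal.ofReal (psi κ ν s) =
        ∫⁻ s in Ioc (0 : ℝ) ν, ENNReal.ofReal (ν ^ (1 - κ) * s ^ (κ - 1)) := by
      refine setLIntegral_congr_fun measurableSet_Ioc fun s hs => ?_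
      simp only [psi]
      rw [if_pos hs.2]
    have hex : -1 < κ - 1 := by linarith
    have hint : IntervalIntegrable (fun t : ℝ => ν ^ (1 - κ) * t ^ (κ - 1)) volume 0 ν :=
      (intervalIntegral.intervalIntegrable_rpow' hex).const_mul _
    rw [e1, ← ofReal_integral_eq_lintegral_ofReal, ← intervalIntegral.integral_of_le hν.le,
      intervalIntegral.integral_const_mul, integral_rpow (Or.inl hex)]
    · congr 1
      rw [sub_add_cancel, Real.zero_rpow hκ.ne', sub_zero]
      have : ν ^ (1 - κ) * ν ^ κ = ν := by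
        rw [← Real.rpow_add hν, sub_add_cancel, Real.rpow_one]
      calc ν ^ (1 - κ) * (ν ^ κ / κ) = (ν ^ (1 - κ) * ν ^ κ) / κ := by ring
        _ = _ := by rw [this]
    · rw [intervalIntegrable_iff_integrableOn_Ioc_of_le hν.le] at hint
      exact hint
    · refine (ae_restrict_mem measurableSet_Ioc).mono fun t ht => ?_
      have : 0 ≤ t := ht.1.le
      positivity
  have h2 : ∫⁻ s in Ioi ν, ENNReal.ofReal (psi κ ν s) = ENNReal.ofReal (ν / κ) := by
    have e1 : ∫⁻ s in Ioi ν, ENNReal.ofReal (psi κ ν s) =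
        ∫⁻ s in Ioi ν, ENNReal.ofReal (ν ^ (1 + κ) * s ^ (-1 - κ)) := by
      refine setLIntegral_congr_fun measurableSet_Ioi fun s hs => ?_
      have hs' : ν < s := hs
      simp only [psi]
      rw [if_neg (not_le.2 hs')]
    have hex : -1 - κ < -1 := by linarith
    have hint : IntegrableOn (fun t : ℝ => ν ^ (1 + κ) * t ^ (-1 - κ)) (Ioi ν) :=
      (integrableOn_Ioi_rpow_of_lt hex hν).const_mul _
    rw [e1, ← ofReal_integral_eq_lintegral_ofReal hint, integral_const_mul,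
      integral_Ioi_rpow_of_lt hex hν]
    · congr 1
      have e2 : -1 - κ + 1 = -κ := by ring
      rw [e2]
      have : ν ^ (1 + κ) * ν ^ (-κ) = ν := by
        rw [← Real.rpow_add hν]
        have : 1 + κ + -κ = 1 := by ring
        rw [this, Real.rpow_one]
      calc ν ^ (1 + κ) * (-ν ^ (-κ) / -κ) = (ν ^ (1 + κ) * ν ^ (-κ)) / κ := by
            rw [neg_div_neg_eq]; ring
        _ = _ := by rw [this]
    · refine (ae_restrict_mem measurableSet_Ioi).mono fun t ht => ?_
      have : 0 ≤ t := hν.le.trans (le_of_lt ht)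
      positivity
  rw [hun]
  refine (lintegral_union_le _ _ _).trans (le_of_eq ?_)
  rw [h1, h2, ← ENNReal.ofReal_add (by positivity) (by positivity), ← ENNReal.ofReal_mul (by positivity)]
  congr 1
  ring

/-- the weak norm -/
noncomputable def weak {Ω : Type*} [MeasureSpace Ω] (a : ℝ) (u : Ω → ℝ≥0∞) : ℝ≥0∞ :=
  ⨆ s : {s : ℝ // 0 < s}, ENNReal.ofReal s * volume {p | ENNReal.ofReal s < u p} ^ a

theorem le_weak {Ω : Type*} [MeasureSpace Ω] (a : ℝ) (u : Ω → ℝ≥0∞) (s : ℝ) (hs : 0 < s) :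
    ENNReal.ofReal s * volume {p | ENNReal.ofReal s < u p} ^ a ≤ weak a u :=
  le_iSup (fun s : {s : ℝ // 0 < s} => ENNReal.ofReal s * volume {p | ENNReal.ofReal s < u p} ^ a)
    ⟨s, hs⟩

theorem weak_zero {Ω : Type*} [MeasureSpace Ω] (a : ℝ) (ha : 0 < a) (u : Ω → ℝ≥0∞)
    (h : weak a u = 0) (s : ℝ) (hs : 0 < s) : volume {p | ENNReal.ofReal s < u p} = 0 := by
  have h1 := le_weak a u s hs
  rw [h] at h1
  have h2 := le_antisymm h1 zero_le
  rcases mul_eq_zero.1 h2 with h3 | h3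
  · rw [ENNReal.ofReal_eq_zero] at h3
    linarith
  · rw [ENNReal.rpow_eq_zero_iff] at h3
    rcases h3 with h3 | h3
    · exact h3.1
    · linarith [h3.2]

end Pool.Agent.H972PL
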