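import Mathlib
import Pool.Agent.helper972_pl.W1
set_option autoImplicit false

/-! Oblique products of a planar and a linear weight: the theorem. -/

namespace Pool.Agent.H972PL

open MeasureTheory Complex Set Filter Topology
open scoped ENNReal RealInnerProductSpace ComplexConjugate
open Pool.Agent.R412.RT (E Ey Ey_meas Ex Ex_eq Ex_meas cov inner_repr_symm)
open Pool.Agent.R412.RH (Nice layer2)

/-- the four corners at once -/
theorem sets4 (α β κ : ℝ) (hα : 0 < α) (hβ : 0 < β) (hκ : 0 < κ) (hκ1 : κ < 1)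
    (h1 : α * (1 + κ) < 1) (h2 : β * (1 + κ) < 1) (h3 : 1 < (1 - κ) * (2 * α + β)) :
    ∃ C : ℝ, 0 < C ∧
    ∀ (e : OrthonormalBasis (Fin 3) ℝ (E 3)) (d0 d1 M : ℝ) (f : E 2 → ℂ), 0 ≤ M → Nice M f →
    ∀ (A : Set (ℝ × ℝ)) (B : Set ℝ), MeasurableSet A → MeasurableSet B → ∀ ν ω s t : ℝ,
    ∫⁻ y : Fin 3 → ℝ, WA d0 d1 A B y * ‖Ey e f y‖ₑ ^ 2 ≤
      ENNReal.ofReal (C * M ^ 2) * (volume A ^ ex α κ ν s * volume B ^ ex β κ ω t) := by
  have g1 : α * (1 - κ) < 1 := by nlinarith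
  have g2 : β * (1 - κ) < 1 := by nlinarith
  have p1 : 0 < β * (1 - κ) := mul_pos hβ (by linarith)
  have p2 : 0 < β * (1 + κ) := mul_pos hβ (by linarith)
  have q1 : 0 < β * κ := by positivity
  have q2 : 0 < α * κ := by positivity
  obtain ⟨C1, hC1, s1⟩ := sets' (α * (1 - κ)) (β * (1 - κ)) p1 g2 (by linarith) g1
  obtain ⟨C2, hC2, s2⟩ := sets' (α * (1 - κ)) (β * (1 + κ)) p2 h2 (by linarith) g1
  obtain ⟨C3, hC3, s3⟩ := sets' (α * (1 + κ)) (β * (1 - κ)) p1 g2 (by linarith) h1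
  obtain ⟨C4, hC4, s4⟩ := sets' (α * (1 + κ)) (β * (1 + κ)) p2 h2 (by linarith) h1
  refine ⟨C1 + C2 + C3 + C4, by positivity, fun e d0 d1 M f hM hf A B hA hB ν ω s t => ?_⟩
  have hK : ∀ c : ℝ, c ≤ C1 + C2 + C3 + C4 →
      ENNReal.ofReal (c * M ^ 2) ≤ ENNReal.ofReal ((C1 + C2 + C3 + C4) * M ^ 2) := fun c hc =>
    ENNReal.ofReal_le_ofReal (mul_le_mul_of_nonneg_right hc (by positivity))
  unfold ex
  by_cases hs : s ≤ ν <;> by_cases ht : t ≤ ω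
  · rw [if_pos hs, if_pos ht]
    exact (s1 e d0 d1 M f hM hf A B hA hB).trans (mul_le_mul_left (hK C1 (by linarith)) _)
  · rw [if_pos hs, if_neg ht]
    exact (s2 e d0 d1 M f hM hf A B hA hB).trans (mul_le_mul_left (hK C2 (by linarith)) _)
  · rw [if_neg hs, if_pos ht]
    exact (s3 e d0 d1 M f hM hf A B hA hB).trans (mul_le_mul_left (hK C3 (by linarith)) _)
  · rw [if_neg hs, if_neg ht]
    exact (s4 e d0 d1 M f hM hf A B hA hB).trans (mul_le_mul_left (hK C4 (by linarith)) _)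

theorem exists_kappa (α β : ℝ) (hα : 0 < α) (hβ : 0 < β) (hα1 : α < 1) (hβ1 : β < 1)
    (h : 1 < 2 * α + β) : ∃ κ : ℝ, 0 < κ ∧ κ < 1 ∧ α * (1 + κ) < 1 ∧ β * (1 + κ) < 1 ∧
      1 < (1 - κ) * (2 * α + β) := by
  refine ⟨min (min ((1 - α) / 2) ((1 - β) / 2)) ((2 * α + β - 1) / (2 * (2 * α + β))), ?_⟩
  set κ := min (min ((1 - α) / 2) ((1 - β) / 2)) ((2 * α + β - 1) / (2 * (2 * α + β))) with hκ
  have k0 : 0 < κ := by
    refine lt_min (lt_min (by linarith) (by linarith)) ?_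
    refine div_pos (by linarith) (by linarith)
  have k1 : κ ≤ (1 - α) / 2 := (min_le_left _ _).trans (min_le_left _ _)
  have k2 : κ ≤ (1 - β) / 2 := (min_le_left _ _).trans (min_le_right _ _)
  have k3 : κ ≤ (2 * α + β - 1) / (2 * (2 * α + β)) := min_le_right _ _
  have hpos : 0 < 2 * (2 * α + β) := by linarith
  rw [le_div_iff₀ hpos] at k3
  refine ⟨k0, by linarith, ?_, ?_, ?_⟩
  · nlinarith
  · nlinarith
  · nlinarith

/-- **oblique product weights**, in coordinates -/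
theorem weights (α β : ℝ) (hα : 0 < α) (hβ : 0 < β) (hα1 : α < 1) (hβ1 : β < 1)
    (h : 1 < 2 * α + β) : ∃ C : ℝ, 0 < C ∧
    ∀ (e : OrthonormalBasis (Fin 3) ℝ (E 3)) (d0 d1 M : ℝ) (f : E 2 → ℂ), 0 ≤ M → Nice M f →
    ∀ (u : ℝ × ℝ → ℝ≥0∞) (w : ℝ → ℝ≥0∞), Measurable u → Measurable w →
    ∫⁻ y : Fin 3 → ℝ, u (pc d0 d1 y) * w (y 2) * ‖Ey e f y‖ₑ ^ 2 ≤
      ENNReal.ofReal (C * M ^ 2) * (weak α u * weak β w) := by
  obtain ⟨κ, hκ, hκ1, a1, a2, a3⟩ := exists_kappa α β hα hβ hα1 hβ1 h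
  obtain ⟨C, hC, hs4⟩ := sets4 α β κ hα hβ hκ hκ1 a1 a2 a3
  refine ⟨C * (2 / κ) ^ 2, by positivity, fun e d0 d1 M f hM hf u w hu hw => ?_⟩
  have hUm : Measurable fun y : Fin 3 → ℝ => u (pc d0 d1 y) := hu.comp (pc_meas d0 d1)
  have hVm : Measurable fun y : Fin 3 → ℝ => w (y 2) := hw.comp (measurable_pi_apply 2)
  have hGm : Measurable fun y : Fin 3 → ℝ => ‖Ey e f y‖ₑ ^ 2 :=
    (Ey_meas e f hf.integrable.1).enorm.pow_const 2
  rw [layer2 volume _ _ _ hUm hVm hGm]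
  have hAs : ∀ s : ℝ, MeasurableSet {p | ENNReal.ofReal s < u p} := fun s =>
    measurableSet_lt measurable_const hu
  have hBs : ∀ t : ℝ, MeasurableSet {p | ENNReal.ofReal t < w p} := fun t =>
    measurableSet_lt measurable_const hw
  have hlev : ∀ s t : ℝ, ∫⁻ y in {y : Fin 3 → ℝ | ENNReal.ofReal s < u (pc d0 d1 y) ∧
      ENNReal.ofReal t < w (y 2)}, ‖Ey e f y‖ₑ ^ 2 =
      ∫⁻ y : Fin 3 → ℝ, WA d0 d1 {p | ENNReal.ofReal s < u p} {p | ENNReal.ofReal t < w p} y *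
        ‖Ey e f y‖ₑ ^ 2 := by
    intro s t
    have hms : MeasurableSet {y : Fin 3 → ℝ | ENNReal.ofReal s < u (pc d0 d1 y) ∧
        ENNReal.ofReal t < w (y 2)} :=
      (measurableSet_lt measurable_const hUm).inter (measurableSet_lt measurable_const hVm)
    rw [← lintegral_indicator hms]
    refine lintegral_congr fun y => ?_
    unfold WA
    by_cases h1 : ENNReal.ofReal s < u (pc d0 d1 y) <;> by_cases h2 : ENNReal.ofReal t < w (y 2) <;>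
      simp [h1, h2]
  simp_rw [hlev]
  by_cases hM0 : M = 0
  · have : ∀ s t : ℝ, ∫⁻ y : Fin 3 → ℝ, WA d0 d1 {p | ENNReal.ofReal s < u p}
        {p | ENNReal.ofReal t < w p} y * ‖Ey e f y‖ₑ ^ 2 = 0 := by
      intro s t
      have h1 := hs4 e d0 d1 M f hM hf _ _ (hAs s) (hBs t) 0 0 0 0
      rw [hM0] at h1
      simpa using h1
    simp_rw [this]
    simp
  have hM' : 0 < M := lt_of_le_of_ne hM (Ne.symm hM0)
  by_cases hu0 : weak α u = 0
  · have : ∀ s ∈ Ioi (0 : ℝ), ∫⁻ t in Ioi (0 : ℝ), ∫⁻ y : Fin 3 → ℝ,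
        WA d0 d1 {p | ENNReal.ofReal s < u p} {p | ENNReal.ofReal t < w p} y *
          ‖Ey e f y‖ₑ ^ 2 ≤ 0 := by
      intro s hs
      refine (lintegral_mono (g := fun _ => 0) fun t => ?_).trans (by simp)
      refine (hs4 e d0 d1 M f hM hf _ _ (hAs s) (hBs t) 0 0 0 0).trans ?_
      rw [weak_zero α hα u hu0 s hs, ENNReal.zero_rpow_of_pos, zero_mul, mul_zero]
      unfold ex
      rw [if_pos le_rfl]
      exact mul_pos hα (by linarith)
    refine (setLIntegral_mono' measurableSet_Ioi this).trans ?_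
    simp
  by_cases hw0 : weak β w = 0
  · have : ∀ s ∈ Ioi (0 : ℝ), ∫⁻ t in Ioi (0 : ℝ), ∫⁻ y : Fin 3 → ℝ,
        WA d0 d1 {p | ENNReal.ofReal s < u p} {p | ENNReal.ofReal t < w p} y *
          ‖Ey e f y‖ₑ ^ 2 ≤ 0 := by
      intro s hs
      refine (setLIntegral_mono' (g := fun _ => 0) measurableSet_Ioi fun t ht => ?_).trans (by simp)
      refine (hs4 e d0 d1 M f hM hf _ _ (hAs s) (hBs t) 0 0 0 0).trans ?_
      rw [weak_zero β hβ w hw0 t ht, ENNReal.zero_rpow_of_pos (y := ex β κ 0 0), mul_zero, mul_zero]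
      unfold ex
      rw [if_pos le_rfl]
      exact mul_pos hβ (by linarith)
    refine (setLIntegral_mono' measurableSet_Ioi this).trans ?_
    simp
  by_cases hfin : weak α u = ∞ ∨ weak β w = ∞
  · have h1 : weak α u * weak β w = ∞ := by
      rcases hfin with h2 | h2
      · rw [h2, ENNReal.top_mul hw0]
      · rw [h2, ENNReal.mul_top hu0]
    rw [h1, ENNReal.mul_top]
    · exact le_top
    · have : 0 < C * (2 / κ) ^ 2 * M ^ 2 := by positivity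
      simpa using this
  push Not at hfin
  obtain ⟨ν, hν, hνe⟩ : ∃ ν : ℝ, 0 < ν ∧ weak α u = ENNReal.ofReal ν :=
    ⟨(weak α u).toReal, ENNReal.toReal_pos hu0 hfin.1, (ENNReal.ofReal_toReal hfin.1).symm⟩
  obtain ⟨ω, hω, hωe⟩ : ∃ ω : ℝ, 0 < ω ∧ weak β w = ENNReal.ofReal ω :=
    ⟨(weak β w).toReal, ENNReal.toReal_pos hw0 hfin.2, (ENNReal.ofReal_toReal hfin.2).symm⟩
  have hbd : ∀ s ∈ Ioi (0 : ℝ), ∀ t ∈ Ioi (0 : ℝ), ∫⁻ y : Fin 3 → ℝ,
        WA d0 d1 {p | ENNReal.ofReal s < u p} {p | ENNReal.ofReal t < w p} y *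
          ‖Ey e f y‖ₑ ^ 2 ≤ ENNReal.ofReal (psi κ ν s) * (ENNReal.ofReal (C * M ^ 2) *
          ENNReal.ofReal (psi κ ω t)) := by
    intro s hs t ht
    refine (hs4 e d0 d1 M f hM hf _ _ (hAs s) (hBs t) ν ω s t).trans ?_
    have c1 := corner α κ ν s hα hκ hκ1 hν hs _ ((le_weak α u s hs).trans hνe.le)
    have c2 := corner β κ ω t hβ hκ hκ1 hω ht _ ((le_weak β w t ht).trans hωe.le)
    calc _ ≤ ENNReal.ofReal (C * M ^ 2) * (ENNReal.ofReal (psi κ ν s) *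
          ENNReal.ofReal (psi κ ω t)) := mul_le_mul_right (mul_le_mul' c1 c2) _
      _ = _ := by ring
  have hpm : ∀ ν : ℝ, Measurable fun s => ENNReal.ofReal (psi κ ν s) := by
    intro ν
    refine Measurable.ennreal_ofReal ?_
    unfold psi
    exact Measurable.ite measurableSet_Iic (by fun_prop) (by fun_prop)
  calc ∫⁻ s in Ioi (0 : ℝ), ∫⁻ t in Ioi (0 : ℝ), ∫⁻ y : Fin 3 → ℝ,
        WA d0 d1 {p | ENNReal.ofReal s < u p} {p | ENNReal.ofReal t < w p} y *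
          ‖Ey e f y‖ₑ ^ 2
      ≤ ∫⁻ s in Ioi (0 : ℝ), ∫⁻ t in Ioi (0 : ℝ), ENNReal.ofReal (psi κ ν s) *
          (ENNReal.ofReal (C * M ^ 2) * ENNReal.ofReal (psi κ ω t)) :=
        setLIntegral_mono' measurableSet_Ioi fun s hs =>
          setLIntegral_mono' measurableSet_Ioi fun t ht => hbd s hs t ht
    _ = (∫⁻ s in Ioi (0 : ℝ), ENNReal.ofReal (psi κ ν s)) * (ENNReal.ofReal (C * M ^ 2) *
          ∫⁻ t in Ioi (0 : ℝ), ENNReal.ofReal (psi κ ω t)) := by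
        have e1 : ∀ s : ℝ, ∫⁻ t in Ioi (0 : ℝ), ENNReal.ofReal (psi κ ν s) *
          (ENNReal.ofReal (C * M ^ 2) * ENNReal.ofReal (psi κ ω t)) =
            ENNReal.ofReal (psi κ ν s) * (ENNReal.ofReal (C * M ^ 2) *
          ∫⁻ t in Ioi (0 : ℝ), ENNReal.ofReal (psi κ ω t)) := by
          intro s
          rw [lintegral_const_mul _ ((hpm ω).const_mul _), lintegral_const_mul _ (hpm ω)]
        simp_rw [e1]
        rw [lintegral_mul_const _ (hpm ν)]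
    _ ≤ (ENNReal.ofReal (2 / κ) * ENNReal.ofReal ν) * (ENNReal.ofReal (C * M ^ 2) *
          (ENNReal.ofReal (2 / κ) * ENNReal.ofReal ω)) :=
        mul_le_mul' (psi_int κ ν hκ hν) (mul_le_mul_right (psi_int κ ω hκ hω) _)
    _ = _ := by
        rw [hνe, hωe]
        have e2 : C * (2 / κ) ^ 2 * M ^ 2 = (2 / κ) * ((C * M ^ 2) * (2 / κ)) := by ring
        rw [e2, ENNReal.ofReal_mul (p := 2 / κ) (by positivity),
          ENNReal.ofReal_mul (p := C * M ^ 2) (by positivity)]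
        ring

/-- **oblique product weights** -/
theorem weightsE (α β : ℝ) (hα : 0 < α) (hβ : 0 < β) (hα1 : α < 1) (hβ1 : β < 1)
    (h : 1 < 2 * α + β) : ∃ C : ℝ, 0 < C ∧
    ∀ (e : OrthonormalBasis (Fin 3) ℝ (E 3)) (a b M : ℝ) (f : E 2 → ℂ), 0 ≤ M → Nice M f →
    ∀ (u : ℝ × ℝ → ℝ≥0∞) (w : ℝ → ℝ≥0∞), Measurable u → Measurable w →
    ∫⁻ ξ : E 3, u (⟪e 0, ξ⟫ - a * ⟪e 2, ξ⟫, ⟪e 1, ξ⟫ - b * ⟪e 2, ξ⟫) * w ⟪e 2, ξ⟫ *
        ‖Ex f ξ‖ₑ ^ 2 ≤ ENNReal.ofReal (C * M ^ 2) * (weak α u * weak β w) := by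
  obtain ⟨C, hC, hw⟩ := weights α β hα hβ hα1 hβ1 h
  refine ⟨C, hC, fun e a b M f hM hf u w hu hwm => ?_⟩
  have hm : Measurable fun ξ : E 3 => u (⟪e 0, ξ⟫ - a * ⟪e 2, ξ⟫, ⟪e 1, ξ⟫ - b * ⟪e 2, ξ⟫) *
      w ⟪e 2, ξ⟫ * ‖Ex f ξ‖ₑ ^ 2 := by
    refine Measurable.mul (Measurable.mul ?_ ?_) ((Ex_meas f hf.integrable.1).enorm.pow_const 2)
    · exact hu.comp (by fun_prop)
    · exact hwm.comp (by fun_prop)
  rw [cov e _ hm]
  refine le_trans (le_of_eq ?_) (hw e a b M f hM hf u w hu hwm)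
  refine lintegral_congr fun y => ?_
  rw [Ex_eq]
  simp only [inner_repr_symm]
  rfl

end Pool.Agent.H972PL
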