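import Mathlib
import Pool.Agent.R412.RT.Z
import Pool.Agent.helper972_pl.W2
set_option autoImplicit false

/-! Conversion to the normalisation `e^{-i Φ(x)·ξ}`. -/

namespace Pool.Agent.H972PL

open MeasureTheory Complex Set Filter Topology
open scoped ENNReal NNReal RealInnerProductSpace ComplexConjugate
open Pool.Agent.R412.RT (E Ex)
open Pool.Agent.R412.RH (Nice)
open Pool.Agent.R412.RZ (ext ext_lint rep scaleV K0 K0_ne cs)

theorem weak_scale {V : Type*} [NormedAddCommGroup V] [NormedSpace ℝ V] [MeasureSpace V]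
    [BorelSpace V] [FiniteDimensional ℝ V] [(volume : Measure V).IsAddHaarMeasure] (a : ℝ)
    (ha : 0 ≤ a) (u : V → ℝ≥0∞) (hu : Measurable u) :
    weak a (fun p => u (cs • p)) ≤ weak a u := by
  unfold weak
  refine iSup_mono fun s => mul_le_mul_right (ENNReal.rpow_le_rpow ?_ ha) _
  have hm : MeasurableSet {p | ENNReal.ofReal s < u p} := measurableSet_lt measurable_const hu
  have hm2 : MeasurableSet {p | ENNReal.ofReal s < u (cs • p)} :=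
    measurableSet_lt measurable_const (hu.comp (measurable_const_smul cs))
  rw [← lintegral_indicator_one hm, ← lintegral_indicator_one hm2]
  exact scaleV (volume : Measure V) _ (measurable_one.indicator hm)

theorem final (α β : ℝ) (hα : 0 < α) (hβ : 0 < β) (hα1 : α < 1) (hβ1 : β < 1)
    (h : 1 < 2 * α + β) : ∃ C : ℝ≥0, ∀ (U : Set (E 2)) (f : E 2 → ℂ)
    (e : OrthonormalBasis (Fin 3) ℝ (E 3)) (a b : ℝ) (u : ℝ × ℝ → ℝ≥0∞) (w : ℝ → ℝ≥0∞),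
    MeasurableSet U → U ⊆ Metric.ball 0 (1 / 2) → MemLp f ∞ (volume.restrict U) →
    Measurable u → Measurable w →
    ∫⁻ ξ, u (⟪e 0, ξ⟫ - a * ⟪e 2, ξ⟫, ⟪e 1, ξ⟫ - b * ⟪e 2, ξ⟫) * w ⟪e 2, ξ⟫ *
        ‖ext U f ξ‖ₑ ^ 2 ≤
      C * weak α u * weak β w * eLpNorm f ∞ (volume.restrict U) ^ 2 := by
  obtain ⟨C, hC, hw⟩ := weightsE α β hα hβ hα1 hβ1 h
  refine ⟨(K0 * ENNReal.ofReal C).toNNReal, ?_⟩
  rw [ENNReal.coe_toNNReal (ENNReal.mul_ne_top K0_ne ENNReal.ofReal_ne_top)]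
  intro U f e a b u w hU hUb hf hu hwm
  obtain ⟨g, hg, hgE⟩ := rep U hU hUb f hf
  set M : ℝ := (eLpNorm f ∞ (volume.restrict U)).toReal with hM
  have hMe : ENNReal.ofReal M = eLpNorm f ∞ (volume.restrict U) :=
    ENNReal.ofReal_toReal hf.2.ne
  rw [ext_lint U hU, hgE]
  have hum : Measurable fun p : ℝ × ℝ => u (cs • p) := hu.comp (measurable_const_smul cs)
  have hwm' : Measurable fun t : ℝ => w (cs • t) := hwm.comp (measurable_const_smul cs)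
  have h1 := hw e a b M g ENNReal.toReal_nonneg hg (fun p => u (cs • p)) (fun t => w (cs • t))
    hum hwm'
  have h2 : ∀ ξ : E 3, u (⟪e 0, cs • ξ⟫ - a * ⟪e 2, cs • ξ⟫, ⟪e 1, cs • ξ⟫ - b * ⟪e 2, cs • ξ⟫) *
      w ⟪e 2, cs • ξ⟫ * ‖Ex g ξ‖ₑ ^ 2 =
      u (cs • (⟪e 0, ξ⟫ - a * ⟪e 2, ξ⟫, ⟪e 1, ξ⟫ - b * ⟪e 2, ξ⟫)) * w (cs • ⟪e 2, ξ⟫) *
        ‖Ex g ξ‖ₑ ^ 2 := by
    intro ξ
    simp only [inner_smul_right, Prod.smul_mk, smul_eq_mul]
    congr 4 <;> ring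
  simp_rw [h2]
  calc ENNReal.ofReal ((2 * Real.pi) ^ 3) * ∫⁻ ξ, u (cs • (⟪e 0, ξ⟫ - a * ⟪e 2, ξ⟫,
        ⟪e 1, ξ⟫ - b * ⟪e 2, ξ⟫)) * w (cs • ⟪e 2, ξ⟫) * ‖Ex g ξ‖ₑ ^ 2
      ≤ K0 * (ENNReal.ofReal (C * M ^ 2) * (weak α (fun p => u (cs • p)) *
        weak β (fun t => w (cs • t)))) := mul_le_mul_right h1 _
    _ ≤ K0 * (ENNReal.ofReal (C * M ^ 2) * (weak α u * weak β w)) :=
        mul_le_mul_right (mul_le_mul_right (mul_le_mul' (weak_scale α hα.le u hu)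
          (weak_scale β hβ.le w hwm)) _) _
    _ = _ := by
        rw [ENNReal.ofReal_mul hC.le, ENNReal.ofReal_pow ENNReal.toReal_nonneg, hMe]
        ring

end Pool.Agent.H972PL
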